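import Mathlib

/-!
Pattern of the forbidden 3-graph, copies as families of vertex classes, the placement lemma and
the bridge to injective maps.
-/

set_option autoImplicit false

namespace Pool.Agent.MP_038f7f_co.H77

open Finset

/-- sizes of the fifteen vertex classes: six centres, six rows, two extra vertices, the class `T` -/
def sz (i : Fin 15) : ℕ :=
  if i.val < 6 then 1 else if i.val < 12 then 39 else if i.val < 14 then 1 else 34

/-- dependency list of the centres -/
def depL : List (ℕ × ℕ) :=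
  [(0, 1), (0, 2), (0, 3), (0, 12), (0, 13), (0, 14), (1, 0), (1, 2), (2, 0), (2, 1), (3, 0), (3, 1),
    (3, 2), (3, 4), (3, 14), (4, 5), (5, 4)]

/-- the edge pattern on classes -/
def R (i j l : Fin 15) : Bool :=
  (i.val == j.val && decide (6 ≤ i.val) && decide (i.val < 12) &&
      (i.val != 9 || decide (l.val ∈ [0, 1, 2, 3, 4, 6, 9, 14]))) ||
    (j.val == i.val + 6 && decide ((i.val, l.val) ∈ depL)) ||
    (i.val == 0 && j.val == 1 && l.val == 2)

variable {V : Type}

/-- a copy of the pattern, given by its vertex classes -/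
structure IsCopy (E : V → V → V → Prop) (A : Fin 15 → Finset V) : Prop where
  card : ∀ i, (A i).card = sz i
  disj : ∀ i j, i ≠ j → Disjoint (A i) (A j)
  edge : ∀ i j l, R i j l = true → ∀ p ∈ A i, ∀ q ∈ A j, ∀ r ∈ A l, p ≠ q → p ≠ r → q ≠ r →
    E p q r

theorem IsCopy.card_biUnion [DecidableEq V] {E : V → V → V → Prop} {A : Fin 15 → Finset V}
    (h : IsCopy E A) (I : Finset (Fin 15)) : (I.biUnion A).card = ∑ i ∈ I, sz i := by
  rw [Finset.card_biUnion (fun i _ j _ hij => h.disj i j hij)]
  exact Finset.sum_congr rfl (fun i _ => h.card i)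

theorem IsCopy.ne_of {E : V → V → V → Prop} {A : Fin 15 → Finset V}
    (h : IsCopy E A) {i j : Fin 15} {p q : V} (hp : p ∈ A i) (hq : q ∈ A j) (hij : i ≠ j) :
    p ≠ q := by
  rintro rfl
  exact Finset.disjoint_left.1 (h.disj i j hij) hp hq

theorem IsCopy.not_mem {E : V → V → V → Prop} {A : Fin 15 → Finset V}
    (h : IsCopy E A) {i j : Fin 15} {p : V} (hp : p ∈ A i) (hij : i ≠ j) : p ∉ A j :=
  Finset.disjoint_left.1 (h.disj i j hij) hp

theorem IsCopy.single {E : V → V → V → Prop} {A : Fin 15 → Finset V}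
    (h : IsCopy E A) (i : Fin 15) (hi : sz i = 1) : ∃ p, A i = {p} :=
  Finset.card_eq_one.1 ((h.card i).trans hi)

/-- a saturated ternary relation -/
structure Hyp [DecidableEq V] (E : V → V → V → Prop) : Prop where
  s1 : ∀ x y z, E x y z → E y x z
  s2 : ∀ x y z, E x y z → E x z y
  ne : ∀ x y z, E x y z → x ≠ y
  free : ∀ A, ¬IsCopy E A
  sat : ∀ x y z, x ≠ y → x ≠ z → y ≠ z → ¬E x y z →
    ∃ A, IsCopy (fun p q r => E p q r ∨ ({p, q, r} : Finset V) = {x, y, z}) A

theorem place_aux [DecidableEq V] {ι κ : Type} [DecidableEq ι] [DecidableEq κ] (s : Finset ι)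
    (w : ι → ℕ) (pl : ι → κ) (C : κ → Finset V) (hC : ∀ i j, i ≠ j → Disjoint (C i) (C j))
    (hw : ∀ j, ∑ i ∈ s.filter (fun i => pl i = j), w i ≤ (C j).card) :
    ∃ A : ι → Finset V, (∀ i ∈ s, A i ⊆ C (pl i) ∧ (A i).card = w i) ∧
      ∀ i ∈ s, ∀ j ∈ s, i ≠ j → Disjoint (A i) (A j) := by
  induction s using Finset.induction_on with
  | empty => exact ⟨fun _ => ∅, by simp, by simp⟩
  | insert a s ha ih =>
    obtain ⟨A, hA1, hA2⟩ := ih (fun j => le_trans (Finset.sum_le_sum_of_subset
      (Finset.filter_subset_filter _ (Finset.subset_insert a s))) (hw j))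
    set U := (s.filter (fun i => pl i = pl a)).biUnion A with hU
    have hUc : U.card ≤ ∑ i ∈ s.filter (fun i => pl i = pl a), w i := by
      refine le_trans Finset.card_biUnion_le (le_of_eq ?_)
      exact Finset.sum_congr rfl (fun i hi => (hA1 i (Finset.mem_filter.1 hi).1).2)
    have h1 := hw (pl a)
    rw [Finset.filter_insert, if_pos rfl, Finset.sum_insert (by simp [ha])] at h1
    have h2 : w a ≤ (C (pl a) \ U).card := by
      have := Finset.le_card_sdiff U (C (pl a))
      omega
    obtain ⟨X, hX1, hX2⟩ := Finset.exists_subset_card_eq h2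
    have hXA : ∀ j ∈ s, Disjoint X (A j) := by
      intro j hj
      by_cases hp : pl j = pl a
      · refine Finset.disjoint_left.2 (fun t ht ht' => ?_)
        have := (Finset.mem_sdiff.1 (hX1 ht)).2
        exact this (Finset.mem_biUnion.2 ⟨j, Finset.mem_filter.2 ⟨hj, hp⟩, ht'⟩)
      · exact Finset.disjoint_of_subset_left (hX1.trans Finset.sdiff_subset)
          (Finset.disjoint_of_subset_right (hA1 j hj).1 (hC _ _ (Ne.symm hp)))
    refine ⟨Function.update A a X, ?_, ?_⟩
    · intro i hi
      rcases Finset.mem_insert.1 hi with rfl | hi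
      · rw [Function.update_self]
        exact ⟨hX1.trans Finset.sdiff_subset, hX2⟩
      · have : i ≠ a := fun h => ha (h ▸ hi)
        rw [Function.update_of_ne this]
        exact hA1 i hi
    · intro i hi j hj hij
      by_cases hia : i = a
      · have hja : j ≠ a := fun h => hij (hia.trans h.symm)
        have hj' : j ∈ s := (Finset.mem_insert.1 hj).resolve_left hja
        rw [hia, Function.update_self, Function.update_of_ne hja]
        exact hXA j hj'
      · have hi' : i ∈ s := (Finset.mem_insert.1 hi).resolve_left hia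
        by_cases hja : j = a
        · rw [hja, Function.update_self, Function.update_of_ne hia]
          exact (hXA i hi').symm
        · have hj' : j ∈ s := (Finset.mem_insert.1 hj).resolve_left hja
          rw [Function.update_of_ne hia, Function.update_of_ne hja]
          exact hA2 i hi' j hj' hij

/-- placement lemma: put every class into a container -/
theorem place [DecidableEq V] {κ : Type} [DecidableEq κ] (E : V → V → V → Prop)
    (pl : Fin 15 → κ) (C : κ → Finset V) (hC : ∀ i j, i ≠ j → Disjoint (C i) (C j))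
    (hw : ∀ j, ∑ i ∈ univ.filter (fun i => pl i = j), sz i ≤ (C j).card)
    (hE : ∀ i j l, R i j l = true → ∀ p ∈ C (pl i), ∀ q ∈ C (pl j), ∀ r ∈ C (pl l),
      p ≠ q → p ≠ r → q ≠ r → E p q r) : ∃ A, IsCopy E A := by
  obtain ⟨A, h1, h2⟩ := place_aux univ sz pl C hC hw
  refine ⟨A, fun i => (h1 i (mem_univ _)).2, fun i j hij => h2 i (mem_univ _) j (mem_univ _) hij,
    fun i j l hR p hp q hq r hr => hE i j l hR p ((h1 i (mem_univ _)).1 hp) q
      ((h1 j (mem_univ _)).1 hq) r ((h1 l (mem_univ _)).1 hr)⟩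

/-- the vertex type of the forbidden 3-graph -/
abbrev W : Type := Σ i : Fin 15, Fin (sz i)

/-- numbering of the vertices -/
noncomputable def eW : W ≃ Fin (Fintype.card W) := Fintype.equivFin W

open Classical in
/-- the forbidden 3-graph -/
noncomputable def FF : Finset (Finset (Fin (Fintype.card W))) :=
  univ.filter (fun e => ∃ p q r : W, p ≠ q ∧ p ≠ r ∧ q ≠ r ∧ R p.1 q.1 r.1 = true ∧
    e = {eW p, eW q, eW r})

theorem mem_FF (e : Finset (Fin (Fintype.card W))) : e ∈ FF ↔ ∃ p q r : W, p ≠ q ∧ p ≠ r ∧ q ≠ r ∧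
    R p.1 q.1 r.1 = true ∧ e = {eW p, eW q, eW r} := by
  simp [FF]

theorem FF_card (e : Finset (Fin (Fintype.card W))) (he : e ∈ FF) : e.card = 3 := by
  obtain ⟨p, q, r, h1, h2, h3, -, rfl⟩ := (mem_FF e).1 he
  exact Finset.card_eq_three.2 ⟨_, _, _, eW.injective.ne h1, eW.injective.ne h2,
    eW.injective.ne h3, rfl⟩

theorem FF_nonempty : FF.Nonempty := by
  refine ⟨_, (mem_FF _).2 ⟨⟨0, ⟨0, by decide⟩⟩, ⟨1, ⟨0, by decide⟩⟩, ⟨2, ⟨0, by decide⟩⟩,
    ?_, ?_, ?_, by decide, rfl⟩⟩ <;>
  · intro h
    have := congrArg Sigma.fst h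
    simp at this

theorem contains_iff [DecidableEq V] (G : Finset (Finset V)) :
    (∃ f : Fin (Fintype.card W) ↪ V, ∀ e ∈ FF, e.map f ∈ G) ↔
      ∃ A, IsCopy (fun x y z => ({x, y, z} : Finset V) ∈ G) A := by
  constructor
  · rintro ⟨f, hf⟩
    refine ⟨fun i => univ.image (fun j : Fin (sz i) => f (eW ⟨i, j⟩)), ?_, ?_, ?_⟩
    · intro i
      rw [Finset.card_image_of_injective]
      · simp
      · intro j j' h
        have := eW.injective (f.injective h)
        simpa using this
    · intro i j hij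
      refine Finset.disjoint_left.2 (fun t ht ht' => hij ?_)
      obtain ⟨a, -, rfl⟩ := Finset.mem_image.1 ht
      obtain ⟨b, -, hb⟩ := Finset.mem_image.1 ht'
      exact (congrArg Sigma.fst (eW.injective (f.injective hb))).symm
    · intro i j l hR p hp q hq r hr h1 h2 h3
      obtain ⟨a, -, rfl⟩ := Finset.mem_image.1 hp
      obtain ⟨b, -, rfl⟩ := Finset.mem_image.1 hq
      obtain ⟨c, -, rfl⟩ := Finset.mem_image.1 hr
      have := hf _ ((mem_FF _).2 ⟨⟨i, a⟩, ⟨j, b⟩, ⟨l, c⟩, fun h => h1 (by rw [h]),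
        fun h => h2 (by rw [h]), fun h => h3 (by rw [h]), hR, rfl⟩)
      simpa using this
  · rintro ⟨A, hA⟩
    let g : ∀ i : Fin 15, Fin (sz i) → V := fun i j =>
      ((Finset.equivFinOfCardEq (hA.card i)).symm j : V)
    have hg : ∀ i j, g i j ∈ A i := fun i j => ((Finset.equivFinOfCardEq (hA.card i)).symm j).2
    have hinj : Function.Injective (fun w : W => g w.1 w.2) := by
      rintro ⟨i, a⟩ ⟨j, b⟩ h
      have hij : i = j := by
        by_contra hij
        exact Finset.disjoint_left.1 (hA.disj i j hij) (hg i a) (by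
          have h' : g i a = g j b := h
          rw [h']; exact hg j b)
      subst hij
      have h' : g i a = g i b := h
      have := (Finset.equivFinOfCardEq (hA.card i)).symm.injective (Subtype.ext h')
      rw [this]
    refine ⟨⟨fun t => g (eW.symm t).1 (eW.symm t).2, hinj.comp eW.symm.injective⟩, ?_⟩
    intro e he
    obtain ⟨p, q, r, h1, h2, h3, hR, rfl⟩ := (mem_FF e).1 he
    have := hA.edge _ _ _ hR _ (hg p.1 p.2) _ (hg q.1 q.2) _ (hg r.1 r.2) (hinj.ne h1)
      (hinj.ne h2) (hinj.ne h3)
    simp only [Finset.map_insert, Finset.map_singleton, Function.Embedding.coeFn_mk]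
    rw [eW.symm_apply_apply, eW.symm_apply_apply, eW.symm_apply_apply]
    exact this

end Pool.Agent.MP_038f7f_co.H77
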