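import Mathlib
import Pool.Agent.MP_038f7f_co.h77.Defs

/-!
The role lemma: what a missing triple of a saturated relation looks like.
-/

set_option autoImplicit false

namespace Pool.Agent.MP_038f7f_co.H77

open Finset

variable {V : Type} [Fintype V] [DecidableEq V] {E : V → V → V → Prop}

open Classical in
/-- neighbourhood of a pair -/
noncomputable def N (E : V → V → V → Prop) (x y : V) : Finset V := univ.filter (fun s => E x y s)

omit [DecidableEq V] in
theorem mem_N {x y s : V} : s ∈ N E x y ↔ E x y s := by simp [N]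

omit [Fintype V] in
theorem Hyp.r1 (h : Hyp E) {x y z : V} (e : E x y z) : E y z x := h.s2 _ _ _ (h.s1 _ _ _ e)

omit [Fintype V] in
theorem Hyp.r2 (h : Hyp E) {x y z : V} (e : E x y z) : E z x y := h.r1 (h.r1 e)

omit [Fintype V] in
theorem Hyp.s3 (h : Hyp E) {x y z : V} (e : E x y z) : E z y x := h.r1 (h.s2 _ _ _ e)

omit [Fintype V] in
theorem Hyp.ne13 (h : Hyp E) {x y z : V} (e : E x y z) : x ≠ z := h.ne _ _ _ (h.s2 _ _ _ e)

omit [Fintype V] in
theorem Hyp.ne23 (h : Hyp E) {x y z : V} (e : E x y z) : y ≠ z := h.ne _ _ _ (h.r1 e)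

theorem Hyp.N_comm (h : Hyp E) (x y : V) : N E x y = N E y x := by
  ext s
  rw [mem_N, mem_N]
  exact ⟨h.s1 _ _ _, h.s1 _ _ _⟩

/-- first alternative of the role lemma -/
def CaseA (E : V → V → V → Prop) (x y z : V) : Prop :=
  ∃ S : Finset V, 36 ≤ S.card ∧ (∀ s ∈ S, E x y s ∧ E x z s ∧ E y z s) ∧
    (71 ≤ (N E x y).card ∨ 71 ≤ (N E x z).card ∨ 71 ≤ (N E y z).card)

/-- second alternative of the role lemma -/
structure TB (E : V → V → V → Prop) (x y z : V) (X Y Z : Finset V) : Prop where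
  cX : X.card = 39
  cY : Y.card = 39
  cZ : Z.card = 39
  dXY : Disjoint X Y
  dXZ : Disjoint X Z
  dYZ : Disjoint Y Z
  eX : ∀ s ∈ X, E x y s ∧ E x z s
  eY : ∀ s ∈ Y, E x y s ∧ E y z s
  eZ : ∀ s ∈ Z, E x z s ∧ E y z s
  pg : ∀ O : Finset V, (O = X ∨ O = Y ∨ O = Z) → ∀ p ∈ O, ∀ q ∈ O, ∀ t,
    (t = x ∨ t = y ∨ t = z ∨ t ∈ X ∨ t ∈ Y ∨ t ∈ Z) → p ≠ q → p ≠ t → q ≠ t → E p q t

omit [Fintype V] in
theorem TB.swap12 (h : Hyp E) {x y z : V} {X Y Z : Finset V} (t : TB E x y z X Y Z) :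
    TB E y x z Y X Z :=
  ⟨t.cY, t.cX, t.cZ, t.dXY.symm, t.dYZ, t.dXZ,
    fun s hs => ⟨h.s1 _ _ _ (t.eY s hs).1, (t.eY s hs).2⟩,
    fun s hs => ⟨h.s1 _ _ _ (t.eX s hs).1, (t.eX s hs).2⟩,
    fun s hs => ⟨(t.eZ s hs).2, (t.eZ s hs).1⟩,
    fun O hO p hp q hq w hw => t.pg O (by tauto) p hp q hq w (by tauto)⟩

omit [Fintype V] in
theorem TB.swap23 (h : Hyp E) {x y z : V} {X Y Z : Finset V} (t : TB E x y z X Y Z) :
    TB E x z y X Z Y :=
  ⟨t.cX, t.cZ, t.cY, t.dXZ, t.dXY, t.dYZ.symm,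
    fun s hs => ⟨(t.eX s hs).2, (t.eX s hs).1⟩,
    fun s hs => ⟨(t.eZ s hs).1, h.s1 _ _ _ (t.eZ s hs).2⟩,
    fun s hs => ⟨(t.eY s hs).1, h.s1 _ _ _ (t.eY s hs).2⟩,
    fun O hO p hp q hq w hw => t.pg O (by tauto) p hp q hq w (by tauto)⟩

/-- the conclusion of the role lemma -/
def Role (E : V → V → V → Prop) (x y z : V) : Prop :=
  CaseA E x y z ∨ ∃ X Y Z, TB E x y z X Y Z

theorem Role.swap12 (h : Hyp E) {x y z : V} (r : Role E x y z) : Role E y x z := by
  rcases r with ⟨S, h1, h2, h3⟩ | ⟨X, Y, Z, t⟩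
  · refine Or.inl ⟨S, h1, fun s hs => ⟨h.s1 _ _ _ (h2 s hs).1, (h2 s hs).2.2, (h2 s hs).2.1⟩, ?_⟩
    rw [h.N_comm y x]
    tauto
  · exact Or.inr ⟨Y, X, Z, t.swap12 h⟩

theorem Role.swap23 (h : Hyp E) {x y z : V} (r : Role E x y z) : Role E x z y := by
  rcases r with ⟨S, h1, h2, h3⟩ | ⟨X, Y, Z, t⟩
  · refine Or.inl ⟨S, h1, fun s hs => ⟨(h2 s hs).2.1, (h2 s hs).1, h.s1 _ _ _ (h2 s hs).2.2⟩, ?_⟩
    rw [h.N_comm z y]
    tauto
  · exact Or.inr ⟨X, Z, Y, t.swap23 h⟩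

theorem Role.perm (h : Hyp E) {p q r x y z : V} (hxy : x ≠ y) (hxz : x ≠ z) (hyz : y ≠ z)
    (he : ({p, q, r} : Finset V) = {x, y, z}) (ro : Role E p q r) : Role E x y z := by
  have hx : x ∈ ({p, q, r} : Finset V) := by rw [he]; simp
  have hy : y ∈ ({p, q, r} : Finset V) := by rw [he]; simp
  have hz : z ∈ ({p, q, r} : Finset V) := by rw [he]; simp
  simp only [Finset.mem_insert, Finset.mem_singleton] at hx hy hz
  rcases hx with rfl | rfl | rfl <;> rcases hy with rfl | rfl | rfl <;>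
    rcases hz with rfl | rfl | rfl <;>
    first
      | exact absurd rfl hxy
      | exact absurd rfl hxz
      | exact absurd rfl hyz
      | exact ro
      | exact ro.swap12 h
      | exact ro.swap23 h
      | exact (ro.swap12 h).swap23 h
      | exact (ro.swap23 h).swap12 h
      | exact ((ro.swap12 h).swap23 h).swap12 h

theorem R_class : ∀ i j l : Fin 15, R i j l = true →
    (i = j ∧ sz i = 39 ∧ R i i i = true ∧
      ∀ l' ∈ ({0, 1, 2, 3, 6, 9} : Finset (Fin 15)), R i i l' = true) ∨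
    (sz j = 39 ∧ i ≠ j ∧ l ≠ j ∧ R j j i = true ∧ R j j l = true ∧
      ((R i j 14 = true ∧ i ≠ 14 ∧ j ≠ 14) ∨
        ∃ j', R l j' i = true ∧ sz j' = 39 ∧ j' ≠ j)) ∨
    (i = 0 ∧ j = 1 ∧ l = 2) := by decide +kernel

theorem R_row : ∀ i l : Fin 15, (i = 6 ∨ i = 7 ∨ i = 8) → R i i l = true := by decide +kernel

theorem role (h : Hyp E) {x y z : V} (hxy : x ≠ y) (hxz : x ≠ z) (hyz : y ≠ z)
    (hn : ¬E x y z) : Role E x y z := by
  obtain ⟨A, hA⟩ := h.sat x y z hxy hxz hyz hn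
  have hex : ∃ i j l, R i j l = true ∧ ∃ p ∈ A i, ∃ q ∈ A j, ∃ r ∈ A l, p ≠ q ∧ p ≠ r ∧ q ≠ r ∧
      ¬E p q r := by
    by_contra hc
    push Not at hc
    exact h.free A ⟨hA.card, hA.disj, hc⟩
  obtain ⟨i, j, l, hR, p, hp, q, hq, r, hr, hpq, hpr, hqr, hne⟩ := hex
  have he := (hA.edge i j l hR p hp q hq r hr hpq hpr hqr).resolve_left hne
  refine Role.perm h hxy hxz hyz he ?_
  have ed : ∀ i' j' l', R i' j' l' = true → ∀ a ∈ A i', ∀ b ∈ A j', ∀ c ∈ A l', a ≠ b → a ≠ c →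
      b ≠ c → ∀ s, (s = a ∨ s = b ∨ s = c) → s ∉ ({p, q, r} : Finset V) → E a b c := by
    intro i' j' l' hR' a ha b hb c hc h1 h2 h3 s hs hs'
    refine (hA.edge i' j' l' hR' a ha b hb c hc h1 h2 h3).resolve_right (fun e => hs' ?_)
    rw [he, ← e]
    simpa using hs
  have nm : ∀ s : V, s ∉ ({p, q, r} : Finset V) → s ≠ p ∧ s ≠ q ∧ s ≠ r := by
    intro s hs
    simpa [not_or] using hs
  have c3 : ({p, q, r} : Finset V).card ≤ 3 := Finset.card_le_three
  rcases R_class i j l hR with ⟨rfl, h1, h2, h3⟩ | ⟨h1, h2, h3, h4, h5, h6⟩ | ⟨rfl, rfl, rfl⟩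
  · refine Or.inl ⟨A i \ {p, q, r}, ?_, ?_, Or.inl ?_⟩
    · have := Finset.le_card_sdiff {p, q, r} (A i)
      rw [hA.card, h1] at this
      omega
    · intro s hs
      obtain ⟨hs1, hs2⟩ := Finset.mem_sdiff.1 hs
      obtain ⟨n1, n2, n3⟩ := nm s hs2
      exact ⟨ed i i i h2 p hp q hq s hs1 hpq n1.symm n2.symm s (by simp) hs2,
        h.s2 _ _ _ (ed i i l hR p hp s hs1 r hr n1.symm hpr n3 s (by simp) hs2),
        h.s2 _ _ _ (ed i i l hR q hq s hs1 r hr n2.symm hqr n3 s (by simp) hs2)⟩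
    · have hc := hA.card_biUnion {0, 1, 2, 3, 6, 9}
      have hs : ∑ i ∈ ({0, 1, 2, 3, 6, 9} : Finset (Fin 15)), sz i = 82 := by decide +kernel
      have hsub : ({0, 1, 2, 3, 6, 9} : Finset (Fin 15)).biUnion A \ {p, q, r} ⊆ N E p q := by
        intro s hs
        obtain ⟨hs1, hs2⟩ := Finset.mem_sdiff.1 hs
        obtain ⟨n1, n2, -⟩ := nm s hs2
        obtain ⟨l', hl', hs3⟩ := Finset.mem_biUnion.1 hs1
        exact mem_N.2 (ed i i l' (h3 l' hl') p hp q hq s hs3 hpq n1.symm n2.symm s (by simp) hs2)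
      have k1 := Finset.card_le_card hsub
      have k2 := Finset.le_card_sdiff {p, q, r} (({0, 1, 2, 3, 6, 9} : Finset (Fin 15)).biUnion A)
      omega
  · have key : ∀ s ∈ A j \ {p, q, r}, E p q s ∧ E p r s ∧ E q r s := by
      intro s hs
      obtain ⟨hs1, hs2⟩ := Finset.mem_sdiff.1 hs
      obtain ⟨n1, n2, n3⟩ := nm s hs2
      exact ⟨h.r2 (ed j j i h4 q hq s hs1 p hp n2.symm hpq.symm n1 s (by simp) hs2),
        h.s2 _ _ _ (ed i j l hR p hp s hs1 r hr n1.symm hpr n3 s (by simp) hs2),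
        h.s2 _ _ _ (ed j j l h5 q hq s hs1 r hr n2.symm hqr n3 s (by simp) hs2)⟩
    refine Or.inl ⟨A j \ {p, q, r}, ?_, key, ?_⟩
    · have := Finset.le_card_sdiff {p, q, r} (A j)
      rw [hA.card, h1] at this
      omega
    · rcases h6 with ⟨g1, g2, g3⟩ | ⟨j', g1, g2, g3⟩
      · left
        have hsub : (A j ∪ A 14) \ {q, r} ⊆ N E p q := by
          intro s hs
          obtain ⟨hs1, hs2⟩ := Finset.mem_sdiff.1 hs
          have hsp : s ≠ p := by
            rcases Finset.mem_union.1 hs1 with g | g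
            · exact hA.ne_of g hp h2.symm
            · exact hA.ne_of g hp g2.symm
          have hs3 : s ∉ ({p, q, r} : Finset V) := by
            rw [Finset.mem_insert, not_or]
            exact ⟨hsp, hs2⟩
          rcases Finset.mem_union.1 hs1 with g | g
          · exact mem_N.2 (key s (Finset.mem_sdiff.2 ⟨g, hs3⟩)).1
          · exact mem_N.2 (ed i j 14 g1 p hp q hq s g hpq hsp.symm (nm s hs3).2.1.symm s
              (by simp) hs3)
        have k1 := Finset.card_le_card hsub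
        have k2 := Finset.le_card_sdiff {q, r} (A j ∪ A 14)
        have k3 : ({q, r} : Finset V).card ≤ 2 := Finset.card_le_two
        rw [Finset.card_union_of_disjoint (hA.disj j 14 g3), hA.card, hA.card, h1,
          show sz 14 = 34 by decide] at k2
        omega
      · right; left
        have hsub : (A j ∪ A j') \ {p, q, r} ⊆ N E p r := by
          intro s hs
          obtain ⟨hs1, hs2⟩ := Finset.mem_sdiff.1 hs
          obtain ⟨n1, -, n3⟩ := nm s hs2
          rcases Finset.mem_union.1 hs1 with g | g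
          · exact mem_N.2 (key s (Finset.mem_sdiff.2 ⟨g, hs2⟩)).2.1
          · exact mem_N.2 (h.r2 (ed l j' i g1 r hr s g p hp n3.symm hpr.symm n1 s (by simp) hs2))
        have k1 := Finset.card_le_card hsub
        have k2 := Finset.le_card_sdiff {p, q, r} (A j ∪ A j')
        rw [Finset.card_union_of_disjoint (hA.disj j j' g3.symm), hA.card, hA.card, h1, g2] at k2
        omega
  · have out : ∀ i' : Fin 15, i' ≠ 0 → i' ≠ 1 → i' ≠ 2 → ∀ s ∈ A i',
        s ∉ ({p, q, r} : Finset V) := by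
      intro i' g0 g1 g2 s hs
      simp only [Finset.mem_insert, Finset.mem_singleton, not_or]
      exact ⟨hA.ne_of hs hp g0, hA.ne_of hs hq g1, hA.ne_of hs hr g2⟩
    have e2 : ∀ a b c : Fin 15, R a b c = true → b ≠ 0 → b ≠ 1 → b ≠ 2 → a ≠ b → a ≠ c → b ≠ c →
        ∀ u ∈ A a, ∀ v ∈ A c, ∀ s ∈ A b, E u v s := by
      intro a b c g g0 g1 g2 g3 g4 g5 u hu v hv s hs
      exact h.s2 _ _ _ (ed a b c g u hu s hs v hv (hA.ne_of hu hs g3) (hA.ne_of hu hv g4)
        (hA.ne_of hs hv g5) s (by simp) (out b g0 g1 g2 s hs))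
    refine Or.inr ⟨A 6, A 7, A 8, hA.card 6, hA.card 7, hA.card 8, hA.disj _ _ (by decide),
      hA.disj _ _ (by decide), hA.disj _ _ (by decide), ?_, ?_, ?_, ?_⟩
    · intro s hs
      exact ⟨e2 0 6 1 (by decide) (by decide) (by decide) (by decide) (by decide) (by decide)
        (by decide) p hp q hq s hs, e2 0 6 2 (by decide) (by decide) (by decide) (by decide)
        (by decide) (by decide) (by decide) p hp r hr s hs⟩
    · intro s hs
      exact ⟨h.s1 _ _ _ (e2 1 7 0 (by decide) (by decide) (by decide) (by decide) (by decide)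
        (by decide) (by decide) q hq p hp s hs), e2 1 7 2 (by decide) (by decide) (by decide)
        (by decide) (by decide) (by decide) (by decide) q hq r hr s hs⟩
    · intro s hs
      exact ⟨h.s1 _ _ _ (e2 2 8 0 (by decide) (by decide) (by decide) (by decide) (by decide)
        (by decide) (by decide) r hr p hp s hs), h.s1 _ _ _ (e2 2 8 1 (by decide) (by decide)
        (by decide) (by decide) (by decide) (by decide) (by decide) r hr q hq s hs)⟩
    · intro O hO a ha b hb t ht g1 g2 g3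
      obtain ⟨l', hl'⟩ : ∃ l', t ∈ A l' := by
        rcases ht with rfl | rfl | rfl | g | g | g
        exacts [⟨0, hp⟩, ⟨1, hq⟩, ⟨2, hr⟩, ⟨6, g⟩, ⟨7, g⟩, ⟨8, g⟩]
      obtain ⟨i', hi', rfl⟩ : ∃ i' : Fin 15, (i' = 6 ∨ i' = 7 ∨ i' = 8) ∧ O = A i' := by
        rcases hO with g | g | g
        exacts [⟨6, by simp, g⟩, ⟨7, by simp, g⟩, ⟨8, by simp, g⟩]
      refine ed i' i' l' (R_row i' l' hi') a ha b hb t hl' g1 g2 g3 a (by simp) (out i' ?_ ?_ ?_ a ha)
      all_goals rcases hi' with rfl | rfl | rfl <;> decide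

end Pool.Agent.MP_038f7f_co.H77
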