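import Mathlib
import Pool.Agent.MP_038f7f_co.h77.Role

/-!
Weight counting: almost all ordered triples are tight.
-/

set_option autoImplicit false

namespace Pool.Agent.MP_038f7f_co.H77

open Finset

variable {V : Type} [Fintype V] [DecidableEq V] {E : V → V → V → Prop}

open Classical in
/-- indicator -/
noncomputable def ind (p : Prop) : ℕ := if p then 1 else 0

theorem ind_pos {p : Prop} (h : p) : ind p = 1 := by simp [ind, h]

theorem ind_neg {p : Prop} (h : ¬p) : ind p = 0 := by simp [ind, h]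

theorem ind_le (p : Prop) : ind p ≤ 1 := by
  by_cases h : p
  · rw [ind_pos h]
  · rw [ind_neg h]; norm_num

theorem sum_ind {α : Type} (s : Finset α) (p : α → Prop) [DecidablePred p] :
    ∑ a ∈ s, ind (p a) = (s.filter p).card := by
  rw [Finset.card_filter]
  refine Finset.sum_congr rfl (fun a _ => ?_)
  by_cases h : p a
  · rw [ind_pos h, if_pos h]
  · rw [ind_neg h, if_neg h]

/-- sum over ordered triples -/
def S3 (f : V → V → V → ℕ) : ℕ := ∑ x, ∑ y, ∑ z, f x y z

omit [DecidableEq V] in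
theorem S3_12 (f : V → V → V → ℕ) : S3 (fun x y z => f y x z) = S3 f := Finset.sum_comm

omit [DecidableEq V] in
theorem S3_23 (f : V → V → V → ℕ) : S3 (fun x y z => f x z y) = S3 f :=
  Finset.sum_congr rfl (fun _ _ => Finset.sum_comm)

omit [DecidableEq V] in
theorem S3_r1 (f : V → V → V → ℕ) : S3 (fun x y z => f y z x) = S3 f :=
  (S3_12 (fun x y z => f x z y)).trans (S3_23 f)

omit [DecidableEq V] in
theorem S3_r2 (f : V → V → V → ℕ) : S3 (fun x y z => f z x y) = S3 f :=
  (S3_r1 (fun x y z => f y z x)).trans (S3_r1 f)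

omit [DecidableEq V] in
theorem S3_add (f g : V → V → V → ℕ) :
    S3 (fun x y z => f x y z + g x y z) = S3 f + S3 g := by
  simp only [S3, Finset.sum_add_distrib]

omit [DecidableEq V] in
theorem S3_mul (c : ℕ) (f : V → V → V → ℕ) : S3 (fun x y z => c * f x y z) = c * S3 f := by
  simp only [S3, Finset.mul_sum]

omit [DecidableEq V] in
theorem S3_le {f g : V → V → V → ℕ} (h : ∀ x y z, f x y z ≤ g x y z) : S3 f ≤ S3 g :=
  Finset.sum_le_sum (fun x _ => Finset.sum_le_sum (fun y _ => Finset.sum_le_sum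
    (fun z _ => h x y z)))

omit [DecidableEq V] in
theorem S3_two (g : V → V → ℕ) :
    S3 (fun x y _ => g x y) = Fintype.card V * ∑ x, ∑ y, g x y := by
  simp only [S3, Finset.sum_const, Finset.card_univ, smul_eq_mul, Finset.mul_sum]

omit [DecidableEq V] in
theorem S3_three (g : V → V → ℕ) :
    S3 (fun x y z => g x y + g x z + g y z) = 3 * (Fintype.card V * ∑ x, ∑ y, g x y) := by
  rw [S3_add (fun x y z => g x y + g x z) (fun _ y z => g y z),
    S3_add (fun x y _ => g x y) (fun x _ z => g x z), S3_23 (fun x y _ => g x y),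
    S3_r1 (fun x y _ => g x y), S3_two]
  ring

/-- number of ordered edges -/
noncomputable def cnt (E : V → V → V → Prop) : ℕ := S3 (fun x y z => ind (E x y z))

omit [DecidableEq V] in
theorem sum_ind_E (x y : V) : ∑ z, ind (E x y z) = (N E x y).card := by
  classical
  rw [sum_ind]
  exact congrArg Finset.card (by ext s; simp [mem_N])

omit [DecidableEq V] in
theorem cnt_eq : cnt E = ∑ x, ∑ y, (N E x y).card := by
  simp only [cnt, S3, sum_ind_E]

/-- small codegree -/
def Sm (E : V → V → V → Prop) (x y : V) : Prop := (N E x y).card ≤ 10 ^ 17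

theorem Hyp.Sm_comm (h : Hyp E) (x y : V) : Sm E x y ↔ Sm E y x := by
  rw [Sm, Sm, h.N_comm]

/-- the weight that the edge `x y s` gives to the pair `x y` -/
noncomputable def om (E : V → V → V → Prop) (x y s : V) : ℕ :=
  ind (E x y s ∧ Sm E x y) *
    (2 + ind (¬Sm E x s) + ind (¬Sm E y s) + 2 * ind (¬Sm E x s ∧ ¬Sm E y s))

theorem om_sum (h : Hyp E) (x y s : V) :
    om E x y s + om E y s x + om E s x y ≤ 6 * ind (E x y s) := by
  by_cases e : E x y s
  · have e1 := h.r1 e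
    have e2 := h.r2 e
    simp only [om, h.Sm_comm y x, h.Sm_comm s x, h.Sm_comm s y, e, e1, e2, true_and]
    by_cases a : Sm E x y <;> by_cases b : Sm E x s <;> by_cases c : Sm E y s <;>
      simp [ind, a, b, c]
  · have e1 : ¬E y s x := fun g => e (h.r2 g)
    have e2 : ¬E s x y := fun g => e (h.r1 g)
    simp [om, ind, e, e1, e2]

/-- total weight of a pair -/
noncomputable def Wt (E : V → V → V → Prop) (x y : V) : ℕ := ∑ s, om E x y s

theorem Wt_sum (h : Hyp E) : ∑ x, ∑ y, Wt E x y ≤ 2 * cnt E := by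
  have h1 : S3 (fun x y s => om E x y s + om E y s x + om E s x y) ≤
      S3 (fun x y s => 6 * ind (E x y s)) := S3_le (om_sum h)
  rw [S3_add (fun x y s => om E x y s + om E y s x) (fun x y s => om E s x y),
    S3_add (om E) (fun x y s => om E y s x), S3_r1 (om E), S3_r2 (om E), S3_mul] at h1
  have h2 : ∑ x, ∑ y, Wt E x y = S3 (om E) := rfl
  rw [h2, cnt]
  omega

theorem Wt_ge {x y : V} (hs : Sm E x y) (S : Finset V) (m : ℕ)
    (hS : ∀ s ∈ S, E x y s ∧
      m ≤ ind (¬Sm E x s) + ind (¬Sm E y s) + 2 * ind (¬Sm E x s ∧ ¬Sm E y s)) :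
    2 * (N E x y).card + m * S.card ≤ Wt E x y := by
  have h1 : S.card = ∑ s, ind (s ∈ S) := by
    rw [sum_ind]
    simp
  rw [← sum_ind_E, h1, Finset.mul_sum, Finset.mul_sum, ← Finset.sum_add_distrib]
  refine Finset.sum_le_sum (fun s _ => ?_)
  by_cases g : s ∈ S
  · obtain ⟨e, hm⟩ := hS s g
    rw [om, ind_pos e, ind_pos g, ind_pos (And.intro e hs)]
    omega
  · by_cases e : E x y s
    · rw [om, ind_pos e, ind_neg g, ind_pos (And.intro e hs)]
      omega
    · rw [ind_neg e, ind_neg g]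
      omega

/-- a tight triple -/
def Tight (E : V → V → V → Prop) (x y z : V) : Prop :=
  ∃ X Y Z, TB E x y z X Y Z ∧ N E x y = X ∪ Y ∧ N E x z = X ∪ Z ∧ N E y z = Y ∪ Z

/-- a small cherry at `x` -/
def Ch (E : V → V → V → Prop) (x y z : V) : Prop :=
  Sm E x y ∧ ∃ s, E x y s ∧ E x z s ∧ Sm E x s

/-- upper bound for the indicator of a triple that is not good -/
noncomputable def bad (E : V → V → V → Prop) (x y z : V) : ℕ :=
  (ind (x = y) + ind (x = z) + ind (y = z)) + ind (E x y z) +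
    (ind (¬Sm E x y) + ind (¬Sm E x z) + ind (¬Sm E y z)) +
    (ind (Ch E x y z) + ind (Ch E y x z) + ind (Ch E z x y))

theorem ind_zero {p : Prop} (h : ind p = 0) : ¬p := fun g => by
  rw [ind_pos g] at h
  exact absurd h (by norm_num)

theorem point (h : Hyp E) (x y z : V) :
    702 + 2 * ind (¬Tight E x y z) ≤ (Wt E x y + Wt E x z + Wt E y z) + 704 * bad E x y z := by
  have hle := ind_le (¬Tight E x y z)
  by_cases hb : bad E x y z = 0
  swap
  · omega
  simp only [bad, Nat.add_eq_zero_iff] at hb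
  obtain ⟨⟨⟨⟨⟨b1, b2⟩, b3⟩, b4⟩, ⟨b5, b6⟩, b7⟩, ⟨b8, b9⟩, b10⟩ := hb
  have s1 : Sm E x y := not_not.1 (ind_zero b5)
  have s2 : Sm E x z := not_not.1 (ind_zero b6)
  have s3 : Sm E y z := not_not.1 (ind_zero b7)
  have cx : ∀ s, E x y s → E x z s → ¬Sm E x s := fun s e1 e2 g => ind_zero b8 ⟨s1, s, e1, e2, g⟩
  have cy : ∀ s, E x y s → E y z s → ¬Sm E y s := fun s e1 e2 g =>
    ind_zero b9 ⟨(h.Sm_comm _ _).1 s1, s, h.s1 _ _ _ e1, e2, g⟩
  have cz : ∀ s, E x z s → E y z s → ¬Sm E z s := fun s e1 e2 g =>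
    ind_zero b10 ⟨(h.Sm_comm _ _).1 s2, s, h.s1 _ _ _ e1, h.s1 _ _ _ e2, g⟩
  rcases role h (ind_zero b1) (ind_zero b2) (ind_zero b3) (ind_zero b4) with
    ⟨S, h1, h2, h3⟩ | ⟨X, Y, Z, t⟩
  · have f : ∀ {a b : Prop}, a → b → 4 ≤ ind a + ind b + 2 * ind (a ∧ b) := by
      intro a b ha hb
      rw [ind_pos ha, ind_pos hb, ind_pos (And.intro ha hb)]
    have w1 := Wt_ge s1 S 4 (fun s hs => ⟨(h2 s hs).1,
      f (cx s (h2 s hs).1 (h2 s hs).2.1) (cy s (h2 s hs).1 (h2 s hs).2.2)⟩)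
    have w2 := Wt_ge s2 S 4 (fun s hs => ⟨(h2 s hs).2.1,
      f (cx s (h2 s hs).1 (h2 s hs).2.1) (cz s (h2 s hs).2.1 (h2 s hs).2.2)⟩)
    have w3 := Wt_ge s3 S 4 (fun s hs => ⟨(h2 s hs).2.2,
      f (cy s (h2 s hs).1 (h2 s hs).2.2) (cz s (h2 s hs).2.1 (h2 s hs).2.2)⟩)
    have d1 : S.card ≤ (N E x y).card := Finset.card_le_card (fun s hs => mem_N.2 (h2 s hs).1)
    have d2 : S.card ≤ (N E x z).card := Finset.card_le_card (fun s hs => mem_N.2 (h2 s hs).2.1)
    have d3 : S.card ≤ (N E y z).card := Finset.card_le_card (fun s hs => mem_N.2 (h2 s hs).2.2)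
    omega
  · have f : ∀ {a b : Prop}, a ∨ b → 1 ≤ ind a + ind b + 2 * ind (a ∧ b) := by
      rintro a b (ha | ha) <;> rw [ind_pos ha] <;> omega
    have u1 : X ∪ Y ⊆ N E x y := fun s hs => mem_N.2
      ((Finset.mem_union.1 hs).elim (fun g => (t.eX s g).1) (fun g => (t.eY s g).1))
    have u2 : X ∪ Z ⊆ N E x z := fun s hs => mem_N.2
      ((Finset.mem_union.1 hs).elim (fun g => (t.eX s g).2) (fun g => (t.eZ s g).1))
    have u3 : Y ∪ Z ⊆ N E y z := fun s hs => mem_N.2
      ((Finset.mem_union.1 hs).elim (fun g => (t.eY s g).2) (fun g => (t.eZ s g).2))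
    have w1 := Wt_ge s1 (X ∪ Y) 1 (fun s hs => ⟨mem_N.1 (u1 hs), f ((Finset.mem_union.1 hs).imp
      (fun g => cx s (t.eX s g).1 (t.eX s g).2) (fun g => cy s (t.eY s g).1 (t.eY s g).2))⟩)
    have w2 := Wt_ge s2 (X ∪ Z) 1 (fun s hs => ⟨mem_N.1 (u2 hs), f ((Finset.mem_union.1 hs).imp
      (fun g => cx s (t.eX s g).1 (t.eX s g).2) (fun g => cz s (t.eZ s g).1 (t.eZ s g).2))⟩)
    have w3 := Wt_ge s3 (Y ∪ Z) 1 (fun s hs => ⟨mem_N.1 (u3 hs), f ((Finset.mem_union.1 hs).imp
      (fun g => cy s (t.eY s g).1 (t.eY s g).2) (fun g => cz s (t.eZ s g).1 (t.eZ s g).2))⟩)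
    have c1 : (X ∪ Y).card = 78 := by rw [Finset.card_union_of_disjoint t.dXY, t.cX, t.cY]
    have c2 : (X ∪ Z).card = 78 := by rw [Finset.card_union_of_disjoint t.dXZ, t.cX, t.cZ]
    have c3 : (Y ∪ Z).card = 78 := by rw [Finset.card_union_of_disjoint t.dYZ, t.cY, t.cZ]
    have d1 := Finset.card_le_card u1
    have d2 := Finset.card_le_card u2
    have d3 := Finset.card_le_card u3
    by_cases g : (N E x y).card ≤ 78 ∧ (N E x z).card ≤ 78 ∧ (N E y z).card ≤ 78
    · have : Tight E x y z := ⟨X, Y, Z, t, (Finset.eq_of_subset_of_card_le u1 (by omega)).symm,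
        (Finset.eq_of_subset_of_card_le u2 (by omega)).symm,
        (Finset.eq_of_subset_of_card_le u3 (by omega)).symm⟩
      rw [ind_neg (not_not.2 this)]
      omega
    · omega

theorem Ch_sum (h : Hyp E) :
    S3 (fun x y z => ind (Ch E x y z)) ≤ 10 ^ 34 * Fintype.card V ^ 2 := by
  classical
  have key : ∀ x y, ∑ z, ind (Ch E x y z) ≤ 10 ^ 34 := by
    intro x y
    rw [sum_ind]
    by_cases hs : Sm E x y
    · have h1 : univ.filter (fun z => Ch E x y z) ⊆
          ((N E x y).filter (fun s => Sm E x s)).biUnion (fun s => N E x s) := by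
        intro z hz
        obtain ⟨-, s, e1, e2, g⟩ := (Finset.mem_filter.1 hz).2
        exact Finset.mem_biUnion.2 ⟨s, Finset.mem_filter.2 ⟨mem_N.2 e1, g⟩, mem_N.2 (h.s2 _ _ _ e2)⟩
      refine (Finset.card_le_card h1).trans
        ((Finset.card_biUnion_le_card_mul _ _ (10 ^ 17)
          (fun s hs => (show Sm E x s from (Finset.mem_filter.1 hs).2))).trans ?_)
      have h2 : ((N E x y).filter (fun s => Sm E x s)).card ≤ 10 ^ 17 :=
        (Finset.card_filter_le _ _).trans hs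
      calc _ ≤ 10 ^ 17 * 10 ^ 17 := Nat.mul_le_mul_right _ h2
        _ = 10 ^ 34 := by norm_num
    · rw [Finset.filter_eq_empty_iff.2 (fun z _ g => hs g.1)]
      simp
  calc S3 (fun x y z => ind (Ch E x y z)) ≤ ∑ _x : V, ∑ _y : V, 10 ^ 34 :=
        Finset.sum_le_sum (fun x _ => Finset.sum_le_sum (fun y _ => key x y))
    _ = 10 ^ 34 * Fintype.card V ^ 2 := by
        rw [Finset.sum_const, Finset.sum_const, Finset.card_univ, smul_eq_mul, smul_eq_mul]
        ring

omit [DecidableEq V] in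
theorem big_sum : 10 ^ 17 * ∑ x, ∑ y, ind (¬Sm E x y) ≤ cnt E := by
  rw [cnt_eq, Finset.mul_sum]
  refine Finset.sum_le_sum (fun x _ => ?_)
  rw [Finset.mul_sum]
  refine Finset.sum_le_sum (fun y _ => ?_)
  by_cases g : Sm E x y
  · rw [ind_neg (not_not.2 g)]
    omega
  · rw [ind_pos g]
    unfold Sm at g
    omega

theorem diag_sum : ∑ x : V, ∑ y : V, ind (x = y) = Fintype.card V := by
  have : ∀ x : V, ∑ y : V, ind (x = y) = 1 := by
    intro x
    rw [sum_ind, Finset.filter_eq]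
    simp
  simp [this]

theorem bad_sum (h : Hyp E) : S3 (bad E) ≤ 3 * (Fintype.card V * Fintype.card V) + cnt E +
    3 * (Fintype.card V * ∑ x, ∑ y, ind (¬Sm E x y)) + 3 * (10 ^ 34 * Fintype.card V ^ 2) := by
  have h1 := Ch_sum h
  have h2 : S3 (bad E) = S3 (fun x y z : V => ind (x = y) + ind (x = z) + ind (y = z)) + cnt E +
      S3 (fun x y z => ind (¬Sm E x y) + ind (¬Sm E x z) + ind (¬Sm E y z)) +
      (S3 (fun x y z => ind (Ch E x y z)) + S3 (fun x y z => ind (Ch E y x z)) +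
        S3 (fun x y z => ind (Ch E z x y))) := by
    simp only [cnt, ← S3_add]
    rfl
  rw [h2, S3_three (fun x y : V => ind (x = y)), S3_three (fun x y => ind (¬Sm E x y)), diag_sum,
    S3_12 (fun x y z => ind (Ch E x y z)), S3_r2 (fun x y z => ind (Ch E x y z))]
  omega

theorem nontight (h : Hyp E) (hn : 10 ^ 50 ≤ Fintype.card V)
    (hc : 10 ^ 12 * cnt E ≤ (117 * 10 ^ 12 + 1) * Fintype.card V ^ 2) :
    10 ^ 12 * S3 (fun x y z => ind (¬Tight E x y z)) ≤ 5 * Fintype.card V ^ 3 := by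
  have h1 := S3_le (point h)
  rw [S3_add (fun _ _ _ => 702) (fun x y z => 2 * ind (¬Tight E x y z)), S3_mul,
    S3_add (fun x y z => Wt E x y + Wt E x z + Wt E y z) (fun x y z => 704 * bad E x y z), S3_mul,
    S3_three, S3_two (fun _ _ => 702)] at h1
  rw [Finset.sum_const, Finset.sum_const, Finset.card_univ, smul_eq_mul, smul_eq_mul] at h1
  have h2 := Wt_sum h
  have h3 := bad_sum h
  have h4 := big_sum (E := E)
  generalize S3 (fun x y z => ind (¬Tight E x y z)) = ν at *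
  generalize ∑ x, ∑ y, Wt E x y = w at *
  generalize ∑ x, ∑ y, ind (¬Sm E x y) = b at *
  generalize cnt E = c at *
  have h5 : S3 (fun x y z => bad E x y z) = S3 (bad E) := rfl
  rw [h5] at h1
  generalize S3 (bad E) = β at *
  generalize Fintype.card V = n at *
  have k1 : n * w ≤ 2 * (n * c) := by nlinarith
  have k2 : 10 ^ 12 * (n * c) ≤ (117 * 10 ^ 12 + 1) * n ^ 3 := by nlinarith
  have k3 : 10 ^ 17 * (n * b) ≤ n * c := by nlinarith
  have k4 : 10 ^ 50 * n ^ 2 ≤ n ^ 3 := by nlinarith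
  have k5 : n * (n * (n * 702)) = 702 * n ^ 3 := by ring
  have k6 : n * n = n ^ 2 := by ring
  rw [k5] at h1
  rw [k6] at h3
  generalize n ^ 3 = n3 at *
  generalize n ^ 2 = n2 at *
  generalize n * w = nw at *
  generalize n * c = nc at *
  generalize n * b = nb at *
  linarith

end Pool.Agent.MP_038f7f_co.H77
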