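import Mathlib
import Pool.Agent.MP_038f7f_co.h77.Role

/-!
Six clean blocks force divisibility.
-/

set_option autoImplicit false

namespace Pool.Agent.MP_038f7f_co.H77

open Finset

variable {V : Type} [Fintype V] [DecidableEq V] {E : V → V → V → Prop}

/-- six disjoint blocks all of whose pairs are full -/
structure Blocks (E : V → V → V → Prop) (B : Fin 6 → Finset V) : Prop where
  card : ∀ i, (B i).card = 40
  disj : ∀ i j, i ≠ j → Disjoint (B i) (B j)
  full : ∀ i, ∀ p ∈ B i, ∀ q ∈ B i, ∀ t, p ≠ q → p ≠ t → q ≠ t → E p q t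

/-- outside all blocks -/
def Out (B : Fin 6 → Finset V) (w : V) : Prop := ∀ i, w ∉ B i

/-- the pair `z, s` sees all of `S` -/
def Thick (E : V → V → V → Prop) (S : Finset V) (z s : V) : Prop := ∀ t ∈ S, E z s t

/-- the row of an outside vertex `w` with respect to two blocks -/
structure Piece (E : V → V → V → Prop) (B : Fin 6 → Finset V) (i j : Fin 6) (w : V)
    (P : Finset V) : Prop where
  card : P.card = 39
  out : ∀ p ∈ P, Out B p
  nm : w ∉ P
  rep : ∃ y ∈ B i, ∀ s ∈ P, E w y s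
  pg : ∀ p ∈ P, ∀ q ∈ P, ∀ t, (t ∈ B i ∨ t ∈ B j ∨ t = w ∨ t ∈ P) → p ≠ q → p ≠ t → q ≠ t →
    E p q t

/-- containers of the two embeddings -/
def Cn (B : Fin 6 → Finset V) (y z s : V) (P : Finset V) : Fin 6 ⊕ Fin 4 → Finset V
  | .inl j => (B j).erase y
  | .inr j => ![{y}, {z}, {s}, P] j

/-- capacities of the containers -/
def cap : Fin 6 ⊕ Fin 4 → ℕ
  | .inl j => if j = 0 then 39 else 40
  | .inr j => if j = 3 then 39 else 1

omit [Fintype V] in
theorem place6 {B : Fin 6 → Finset V} (hB : Blocks E B) {y z s : V} {P : Finset V} (hy : y ∈ B 0)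
    (hz : Out B z) (hs : Out B s) (hP : ∀ p ∈ P, Out B p) (hc : P.card = 39) (hzs : z ≠ s)
    (hzP : z ∉ P) (hsP : s ∉ P) (pl : Fin 15 → Fin 6 ⊕ Fin 4)
    (hw : ∀ k, ∑ i ∈ univ.filter (fun i => pl i = k), sz i ≤ cap k)
    (hE : ∀ i j l, R i j l = true → ∀ p ∈ Cn B y z s P (pl i), ∀ q ∈ Cn B y z s P (pl j),
      ∀ r ∈ Cn B y z s P (pl l), p ≠ q → p ≠ r → q ≠ r → E p q r) : ∃ A, IsCopy E A := by
  have hyz : y ≠ z := fun e => hz 0 (e ▸ hy)
  have hys : y ≠ s := fun e => hs 0 (e ▸ hy)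
  have hyP : y ∉ P := fun e => hP y e 0 hy
  have mix : ∀ i j, Disjoint (Cn B y z s P (.inl i)) (Cn B y z s P (.inr j)) := by
    intro i j
    refine Finset.disjoint_left.2 (fun t ht ht' => ?_)
    obtain ⟨h1, h2⟩ := Finset.mem_erase.1 ht
    fin_cases j
    · exact h1 (Finset.mem_singleton.1 ht')
    · exact hz i (Finset.mem_singleton.1 ht' ▸ h2)
    · exact hs i (Finset.mem_singleton.1 ht' ▸ h2)
    · exact hP t ht' i h2
  refine place E pl (Cn B y z s P) ?_ (fun k => (hw k).trans ?_) hE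
  · rintro (i | i) (j | j) hij
    · exact Finset.disjoint_of_subset_left (Finset.erase_subset _ _)
        (Finset.disjoint_of_subset_right (Finset.erase_subset _ _)
          (hB.disj i j (fun e => hij (by rw [e]))))
    · exact mix i j
    · exact (mix j i).symm
    · have hij' : i ≠ j := fun e => hij (by rw [e])
      fin_cases i <;> fin_cases j <;>
        simp [Cn, hyz, hys, hyP, hzs, hzP, hsP, hyz.symm, hys.symm, hzs.symm] at hij' ⊢
  · rcases k with j | j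
    · by_cases hj : j = 0
      · subst hj
        simp [cap, Cn, Finset.card_erase_of_mem hy, hB.card]
      · have : y ∉ B j := Finset.disjoint_left.1 (hB.disj 0 j (Ne.symm hj)) hy
        simp [cap, Cn, hj, Finset.erase_eq_of_notMem this, hB.card]
    · fin_cases j <;> simp [cap, Cn, hc]

omit [Fintype V] in
theorem same_block (h : Hyp E) {B : Fin 6 → Finset V} (hB : Blocks E B) {p q r : V}
    (h1 : p ≠ q) (h2 : p ≠ r) (h3 : q ≠ r) (i : Fin 6)
    (hi : (p ∈ B i ∧ q ∈ B i) ∨ (p ∈ B i ∧ r ∈ B i) ∨ (q ∈ B i ∧ r ∈ B i)) : E p q r := by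
  rcases hi with ⟨a, b⟩ | ⟨a, b⟩ | ⟨a, b⟩
  · exact hB.full i p a q b r h1 h2 h3
  · exact h.s2 _ _ _ (hB.full i p a r b q h2 h1 h3.symm)
  · exact h.r2 (hB.full i q a r b p h3 h1.symm h2.symm)

/-- placement for the first embedding -/
def pl3 : Fin 15 → Fin 6 ⊕ Fin 4 :=
  ![.inl 0, .inl 0, .inl 0, .inr 0, .inr 1, .inr 2, .inl 1, .inl 4, .inl 5, .inr 3, .inl 2, .inl 3,
    .inl 1, .inl 0, .inl 0]

/-- placement for the second embedding -/
def pl2 : Fin 15 → Fin 6 ⊕ Fin 4 :=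
  ![.inr 0, .inl 0, .inl 0, .inl 0, .inl 0, .inl 0, .inr 3, .inl 1, .inl 2, .inl 3, .inl 4, .inl 5,
    .inr 1, .inr 2, .inl 0]

/-- the block that holds a container, if any -/
def bk : Fin 6 ⊕ Fin 4 → Option (Fin 6)
  | .inl j => some j
  | .inr j => if j = 0 then some 0 else none

omit [Fintype V] in
theorem Cn_sub {B : Fin 6 → Finset V} {y z s : V} {P : Finset V} (hy : y ∈ B 0)
    (k : Fin 6 ⊕ Fin 4) (i : Fin 6) (hk : bk k = some i) : Cn B y z s P k ⊆ B i := by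
  rcases k with j | j
  · simp only [bk, Option.some.injEq] at hk
    subst hk
    exact Finset.erase_subset _ _
  · by_cases hj : j = 0
    · subst hj
      simp only [bk, if_true, Option.some.injEq] at hk
      subst hk
      exact Finset.singleton_subset_iff.2 hy
    · simp [bk, hj] at hk

theorem R_3 : ∀ i j l : Fin 15, R i j l = true →
    (∃ b, (bk (pl3 i) = some b ∧ bk (pl3 j) = some b) ∨ (bk (pl3 i) = some b ∧ bk (pl3 l) = some b) ∨
      (bk (pl3 j) = some b ∧ bk (pl3 l) = some b)) ∨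
    (i = 9 ∧ j = 9 ∧ (bk (pl3 l) = some 0 ∨ bk (pl3 l) = some 1 ∨ l = 4 ∨ l = 9)) ∨
    (i = 3 ∧ j = 9 ∧ l = 4) ∨ (i = 4 ∧ j = 10 ∧ l = 5) ∨ (i = 5 ∧ j = 11 ∧ l = 4) := by
  decide +kernel

theorem R_2 : ∀ i j l : Fin 15, R i j l = true →
    (∃ b, (bk (pl2 i) = some b ∧ bk (pl2 j) = some b) ∨ (bk (pl2 i) = some b ∧ bk (pl2 l) = some b) ∨
      (bk (pl2 j) = some b ∧ bk (pl2 l) = some b)) ∨
    (i = 6 ∧ j = 6 ∧ ((∃ b, bk (pl2 l) = some b) ∨ l = 6 ∨ l = 12 ∨ l = 13)) ∨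
    (i = 0 ∧ j = 6 ∧ l = 12) ∨ (i = 0 ∧ j = 6 ∧ l = 13) := by
  decide +kernel

omit [Fintype V] in
theorem T3 (h : Hyp E) {B : Fin 6 → Finset V} (hB : Blocks E B) {z s : V} {P : Finset V}
    (hz : Out B z) (hs : Out B s) (pc : Piece E B 0 1 z P) (hzs : z ≠ s)
    (t2 : Thick E (B 2) z s) (t3 : Thick E (B 3) z s) : s ∈ P := by
  by_contra hsP
  obtain ⟨y, hy, hrep⟩ := pc.rep
  obtain ⟨A, hA⟩ := place6 hB hy hz hs pc.out pc.card hzs pc.nm hsP pl3 (by decide +kernel) (by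
    intro i j l hR p hp q hq r hr h1 h2 h3
    rcases R_3 i j l hR with ⟨b, hb⟩ | ⟨rfl, rfl, hl⟩ | ⟨rfl, rfl, rfl⟩ | ⟨rfl, rfl, rfl⟩ |
      ⟨rfl, rfl, rfl⟩
    · refine same_block h hB h1 h2 h3 b ?_
      rcases hb with ⟨a, c⟩ | ⟨a, c⟩ | ⟨a, c⟩
      · exact Or.inl ⟨Cn_sub hy _ _ a hp, Cn_sub hy _ _ c hq⟩
      · exact Or.inr (Or.inl ⟨Cn_sub hy _ _ a hp, Cn_sub hy _ _ c hr⟩)
      · exact Or.inr (Or.inr ⟨Cn_sub hy _ _ a hq, Cn_sub hy _ _ c hr⟩)
    · refine pc.pg p hp q hq r ?_ h1 h2 h3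
      rcases hl with a | a | rfl | rfl
      · exact Or.inl (Cn_sub hy _ _ a hr)
      · exact Or.inr (Or.inl (Cn_sub hy _ _ a hr))
      · exact Or.inr (Or.inr (Or.inl (Finset.mem_singleton.1 hr)))
      · exact Or.inr (Or.inr (Or.inr hr))
    · have e1 : p = y := Finset.mem_singleton.1 hp
      have e2 : r = z := Finset.mem_singleton.1 hr
      rw [e1, e2]
      exact h.r1 (hrep q hq)
    · have e1 : p = z := Finset.mem_singleton.1 hp
      have e2 : r = s := Finset.mem_singleton.1 hr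
      rw [e1, e2]
      exact h.s2 _ _ _ (t2 q (Finset.mem_of_mem_erase hq))
    · have e1 : p = s := Finset.mem_singleton.1 hp
      have e2 : r = z := Finset.mem_singleton.1 hr
      rw [e1, e2]
      exact h.r1 (t3 q (Finset.mem_of_mem_erase hq)))
  exact h.free A hA

omit [Fintype V] in
theorem T2 (h : Hyp E) {B : Fin 6 → Finset V} (hB : Blocks E B) {y w x : V} {O : Finset V}
    (hy : y ∈ B 0) (hw : Out B w) (hx : Out B x) (hO : ∀ p ∈ O, Out B p) (hc : O.card = 39)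
    (hwO : w ∉ O) (hxO : x ∉ O)
    (hpg : ∀ p ∈ O, ∀ q ∈ O, ∀ t, ((∃ i, t ∈ B i) ∨ t ∈ O ∨ t = w ∨ t = x) → p ≠ q → p ≠ t →
      q ≠ t → E p q t)
    (ew : ∀ p ∈ O, E w y p) (ex : ∀ p ∈ O, E x y p) : w = x := by
  by_contra hwx
  obtain ⟨A, hA⟩ := place6 hB hy hw hx hO hc hwx hwO hxO pl2 (by decide +kernel) (by
    intro i j l hR p hp q hq r hr h1 h2 h3
    rcases R_2 i j l hR with ⟨b, hb⟩ | ⟨rfl, rfl, hl⟩ | ⟨rfl, rfl, rfl⟩ | ⟨rfl, rfl, rfl⟩
    · refine same_block h hB h1 h2 h3 b ?_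
      rcases hb with ⟨a, c⟩ | ⟨a, c⟩ | ⟨a, c⟩
      · exact Or.inl ⟨Cn_sub hy _ _ a hp, Cn_sub hy _ _ c hq⟩
      · exact Or.inr (Or.inl ⟨Cn_sub hy _ _ a hp, Cn_sub hy _ _ c hr⟩)
      · exact Or.inr (Or.inr ⟨Cn_sub hy _ _ a hq, Cn_sub hy _ _ c hr⟩)
    · refine hpg p hp q hq r ?_ h1 h2 h3
      rcases hl with ⟨b, a⟩ | rfl | rfl | rfl
      · exact Or.inl ⟨b, Cn_sub hy _ _ a hr⟩
      · exact Or.inr (Or.inl hr)
      · exact Or.inr (Or.inr (Or.inl (Finset.mem_singleton.1 hr)))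
      · exact Or.inr (Or.inr (Or.inr (Finset.mem_singleton.1 hr)))
    · have e1 : p = y := Finset.mem_singleton.1 hp
      have e2 : r = w := Finset.mem_singleton.1 hr
      rw [e1, e2]
      exact h.r1 (ew q hq)
    · have e1 : p = y := Finset.mem_singleton.1 hp
      have e2 : r = x := Finset.mem_singleton.1 hr
      rw [e1, e2]
      exact h.r1 (ex q hq))
  exact h.free A hA

omit [Fintype V] in
theorem T3g (h : Hyp E) {B : Fin 6 → Finset V} (hB : Blocks E B) (σ : Fin 6 → Fin 6)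
    (hσ : Function.Injective σ) {z s : V} {P : Finset V}
    (hz : Out B z) (hs : Out B s) (pc : Piece E B (σ 0) (σ 1) z P) (hzs : z ≠ s)
    (t2 : Thick E (B (σ 2)) z s) (t3 : Thick E (B (σ 3)) z s) : s ∈ P :=
  T3 (B := fun i => B (σ i)) h
    ⟨fun _ => hB.card _, fun _ _ hij => hB.disj _ _ (hσ.ne hij), fun _ => hB.full _⟩
    (fun _ => hz _) (fun _ => hs _) ⟨pc.card, fun p hp _ => pc.out p hp _, pc.nm, pc.rep, pc.pg⟩
    hzs t2 t3

/-- six clean blocks -/
structure Clean (E : V → V → V → Prop) (B : Fin 6 → Finset V) : Prop where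
  card : ∀ i, (B i).card = 40
  disj : ∀ i j, i ≠ j → Disjoint (B i) (B j)
  cl : ∀ i j, i ≠ j → ∀ y ∈ B i, ∀ y' ∈ B j, ∀ s, E y y' s → s ∈ B i ∨ s ∈ B j

theorem Clean.tri (h : Hyp E) {B : Fin 6 → Finset V} (hc : Clean E B) {i j : Fin 6} (hij : i ≠ j)
    {y y' w : V} (hy : y ∈ B i) (hy' : y' ∈ B j) (hw : w ∉ B i) (hw' : w ∉ B j) :
    ∃ Z, TB E y y' w ((B i).erase y) ((B j).erase y') Z := by
  have n1 : y ≠ y' := fun e => Finset.disjoint_left.1 (hc.disj i j hij) hy (e ▸ hy')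
  have n2 : y ≠ w := fun e => hw (e ▸ hy)
  have n3 : y' ≠ w := fun e => hw' (e ▸ hy')
  have k1 : ∀ s ∈ B j, ¬E y w s := fun s hs e =>
    (hc.cl i j hij y hy s hs w (h.s2 _ _ _ e)).elim hw hw'
  have k2 : ∀ s ∈ B i, ¬E y' w s := fun s hs e =>
    (hc.cl j i hij.symm y' hy' s hs w (h.s2 _ _ _ e)).elim hw' hw
  rcases role h n1 n2 n3 (fun e => (hc.cl i j hij y hy y' hy' w e).elim hw hw') with
    ⟨S, h1, h2, -⟩ | ⟨X, Y, Z, t⟩
  · obtain ⟨s, hs⟩ : S.Nonempty := Finset.card_pos.1 (by omega)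
    obtain ⟨e1, e2, e3⟩ := h2 s hs
    rcases hc.cl i j hij y hy y' hy' s e1 with g | g
    · exact absurd e3 (k2 s g)
    · exact absurd e2 (k1 s g)
  · have hX : X = (B i).erase y := by
      refine Finset.eq_of_subset_of_card_le (fun s hs => ?_) ?_
      · obtain ⟨e1, e2⟩ := t.eX s hs
        exact Finset.mem_erase.2 ⟨(h.ne13 e1).symm,
          (hc.cl i j hij y hy y' hy' s e1).resolve_right (fun g => k1 s g e2)⟩
      · rw [Finset.card_erase_of_mem hy, hc.card, t.cX]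
    have hY : Y = (B j).erase y' := by
      refine Finset.eq_of_subset_of_card_le (fun s hs => ?_) ?_
      · obtain ⟨e1, e2⟩ := t.eY s hs
        exact Finset.mem_erase.2 ⟨(h.ne23 e1).symm,
          (hc.cl i j hij y hy y' hy' s e1).resolve_left (fun g => k2 s g e2)⟩
      · rw [Finset.card_erase_of_mem hy', hc.card, t.cY]
    exact ⟨Z, hX ▸ hY ▸ t⟩

omit [Fintype V] in
theorem exists_avoid (S T : Finset V) (hc : T.card < S.card) : ∃ s ∈ S, s ∉ T := by
  by_contra hn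
  push Not at hn
  exact absurd (Finset.card_le_card hn) (by omega)

theorem Clean.blocks (h : Hyp E) {B : Fin 6 → Finset V} (hc : Clean E B) : Blocks E B := by
  refine ⟨hc.card, hc.disj, fun i p hp q hq t h1 h2 h3 => ?_⟩
  have hne : ∀ j, (B j).Nonempty := fun j => Finset.card_pos.1 (by rw [hc.card]; norm_num)
  obtain ⟨y, hy, hy'⟩ := exists_avoid (B i) {p, q, t}
    (by rw [hc.card]; exact lt_of_le_of_lt Finset.card_le_three (by norm_num))
  simp only [Finset.mem_insert, Finset.mem_singleton, not_or] at hy'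
  have hp' : p ∈ (B i).erase y := Finset.mem_erase.2 ⟨Ne.symm hy'.1, hp⟩
  have hq' : q ∈ (B i).erase y := Finset.mem_erase.2 ⟨Ne.symm hy'.2.1, hq⟩
  obtain ⟨j, l, hij, hil, hjl⟩ :=
    (by decide : ∀ i : Fin 6, ∃ j l : Fin 6, i ≠ j ∧ i ≠ l ∧ j ≠ l) i
  by_cases ht : t ∈ B i
  · obtain ⟨y', hy2⟩ := hne j
    obtain ⟨w, hw⟩ := hne l
    obtain ⟨Z, tb⟩ := hc.tri h hij hy hy2 (Finset.disjoint_left.1 (hc.disj l i hil.symm) hw)
      (Finset.disjoint_left.1 (hc.disj l j hjl.symm) hw)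
    exact tb.pg _ (Or.inl rfl) p hp' q hq' t
      (Or.inr (Or.inr (Or.inr (Or.inl (Finset.mem_erase.2 ⟨Ne.symm hy'.2.2, ht⟩))))) h1 h2 h3
  · obtain ⟨j', hij', htj⟩ : ∃ j', i ≠ j' ∧ t ∉ B j' := by
      by_cases g : t ∈ B j
      · exact ⟨l, hil, Finset.disjoint_left.1 (hc.disj j l hjl) g⟩
      · exact ⟨j, hij, g⟩
    obtain ⟨y', hy2⟩ := hne j'
    obtain ⟨Z, tb⟩ := hc.tri h hij' hy hy2 ht htj
    exact tb.pg _ (Or.inl rfl) p hp' q hq' t (Or.inr (Or.inr (Or.inl rfl))) h1 h2 h3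

theorem Clean.piece (h : Hyp E) {B : Fin 6 → Finset V} (hc : Clean E B) {i j : Fin 6}
    (hij : i ≠ j) {w : V} (hw : Out B w) : ∃ P, Piece E B i j w P := by
  have hne : ∀ j, (B j).Nonempty := fun j => Finset.card_pos.1 (by rw [hc.card]; norm_num)
  obtain ⟨y, hy⟩ := hne i
  obtain ⟨y', hy'⟩ := hne j
  obtain ⟨Z, tb⟩ := hc.tri h hij hy hy' (hw i) (hw j)
  refine ⟨Z, tb.cZ, fun s hs l hl => ?_, fun hs => h.ne23 (tb.eZ w hs).1 rfl,
    ⟨y, hy, fun s hs => h.s1 _ _ _ (tb.eZ s hs).1⟩, fun p hp q hq t ht => ?_⟩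
  · by_cases hl' : l = i
    · subst hl'
      exact (hc.cl j l hij.symm y' hy' s hl w (h.s2 _ _ _ (tb.eZ s hs).2)).elim (hw _) (hw _)
    · exact (hc.cl i l (Ne.symm hl') y hy s hl w (h.s2 _ _ _ (tb.eZ s hs).1)).elim (hw _) (hw _)
  · refine tb.pg Z (Or.inr (Or.inr rfl)) p hp q hq t ?_
    simp only [Finset.mem_erase]
    tauto

omit [Fintype V] [DecidableEq V] in
theorem Piece.thick {B : Fin 6 → Finset V} {i j : Fin 6} {w : V} {P : Finset V}
    (pc : Piece E B i j w P) {p q : V} (hp : p ∈ P) (hq : q ∈ P) (hpq : p ≠ q) :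
    Thick E (B i) p q ∧ Thick E (B j) p q :=
  ⟨fun t ht => pc.pg p hp q hq t (Or.inl ht) hpq (fun e => pc.out p hp i (e ▸ ht))
      (fun e => pc.out q hq i (e ▸ ht)),
    fun t ht => pc.pg p hp q hq t (Or.inr (Or.inl ht)) hpq (fun e => pc.out p hp j (e ▸ ht))
      (fun e => pc.out q hq j (e ▸ ht))⟩

theorem Clean.clique (h : Hyp E) {B : Fin 6 → Finset V} (hc : Clean E B) {w : V} (hw : Out B w) :
    ∃ D : Finset V, w ∈ D ∧ D.card = 40 ∧ (∀ p ∈ D, Out B p) ∧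
      ∀ p ∈ D, ∀ q ∈ D, p ≠ q → Thick E (B 0) p q ∧ Thick E (B 1) p q := by
  have hB := hc.blocks h
  obtain ⟨O, pO⟩ := hc.piece h (i := 0) (j := 1) (by decide) hw
  obtain ⟨z1, hz1⟩ : O.Nonempty := Finset.card_pos.1 (by rw [pO.card]; norm_num)
  obtain ⟨P1, p1⟩ := hc.piece h (i := 2) (j := 3) (by decide) (pO.out z1 hz1)
  have s1 : O.erase z1 ⊆ P1 := by
    intro s hs
    obtain ⟨g1, g2⟩ := Finset.mem_erase.1 hs
    have := pO.thick hz1 g2 g1.symm
    exact T3g h hB ![2, 3, 0, 1, 4, 5] (by decide) (pO.out z1 hz1) (pO.out s g2) p1 g1.symm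
      this.1 this.2
  obtain ⟨x, hx, hx'⟩ := exists_avoid P1 (O.erase z1)
    (by rw [Finset.card_erase_of_mem hz1, pO.card, p1.card]; norm_num)
  have hxO : x ∉ O := fun g => hx' (Finset.mem_erase.2 ⟨fun e => p1.nm (e ▸ hx), g⟩)
  have hDc : (insert x O).card = 40 := by rw [Finset.card_insert_of_notMem hxO, pO.card]
  have hDo : ∀ p ∈ insert x O, Out B p := by
    intro p hp
    rcases Finset.mem_insert.1 hp with rfl | hp
    · exact p1.out _ hx
    · exact pO.out p hp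
  have t45 : ∀ p ∈ insert x O, ∀ q ∈ insert x O, p ≠ q →
      Thick E (B 4) p q ∧ Thick E (B 5) p q := by
    intro p hp q hq hpq
    obtain ⟨z, hz, hz'⟩ := exists_avoid O {z1, p, q}
      (by rw [pO.card]; exact lt_of_le_of_lt Finset.card_le_three (by norm_num))
    simp only [Finset.mem_insert, Finset.mem_singleton, not_or] at hz'
    obtain ⟨P2, p2⟩ := hc.piece h (i := 4) (j := 5) (by decide) (pO.out z hz)
    have key : ∀ s ∈ insert x O, z ≠ s → s ∈ P2 := by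
      intro s hs hzs
      rcases Finset.mem_insert.1 hs with rfl | g
      · have := p1.thick (s1 (Finset.mem_erase.2 ⟨hz'.1, hz⟩)) hx hzs
        exact T3g h hB ![4, 5, 2, 3, 0, 1] (by decide) (pO.out z hz) (hDo _ hs) p2 hzs
          this.1 this.2
      · have := pO.thick hz g hzs
        exact T3g h hB ![4, 5, 0, 1, 2, 3] (by decide) (pO.out z hz) (hDo _ hs) p2 hzs
          this.1 this.2
    exact p2.thick (key p hp hz'.2.1) (key q hq hz'.2.2) hpq
  have k01 : ∀ z ∈ insert x O, ∃ P, Piece E B 0 1 z P ∧ ∀ s ∈ insert x O, z ≠ s → s ∈ P := by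
    intro z hz
    obtain ⟨P, pc⟩ := hc.piece h (i := 0) (j := 1) (by decide) (hDo z hz)
    exact ⟨P, pc, fun s hs hzs => T3g h hB ![0, 1, 4, 5, 2, 3] (by decide) (hDo z hz) (hDo s hs)
      pc hzs (t45 z hz s hs hzs).1 (t45 z hz s hs hzs).2⟩
  have k23 : ∀ z ∈ insert x O, ∃ P, Piece E B 2 3 z P ∧ ∀ s ∈ insert x O, z ≠ s → s ∈ P := by
    intro z hz
    obtain ⟨P, pc⟩ := hc.piece h (i := 2) (j := 3) (by decide) (hDo z hz)
    exact ⟨P, pc, fun s hs hzs => T3g h hB ![2, 3, 4, 5, 0, 1] (by decide) (hDo z hz) (hDo s hs)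
      pc hzs (t45 z hz s hs hzs).1 (t45 z hz s hs hzs).2⟩
  have tall : ∀ p ∈ insert x O, ∀ q ∈ insert x O, p ≠ q → ∀ i, Thick E (B i) p q := by
    intro p hp q hq hpq i
    obtain ⟨z, hz, hz'⟩ := exists_avoid (insert x O) {p, q}
      (by rw [hDc]; exact lt_of_le_of_lt Finset.card_le_two (by norm_num))
    simp only [Finset.mem_insert, Finset.mem_singleton, not_or] at hz'
    obtain ⟨P, pc, hP⟩ := k01 z hz
    obtain ⟨P', pc', hP'⟩ := k23 z hz
    have a1 := pc.thick (hP p hp hz'.1) (hP q hq hz'.2) hpq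
    have a2 := pc'.thick (hP' p hp hz'.1) (hP' q hq hz'.2) hpq
    have a3 := t45 p hp q hq hpq
    fin_cases i
    exacts [a1.1, a1.2, a2.1, a2.2, a3.1, a3.2]
  obtain ⟨y, hy, hrep⟩ := pO.rep
  have hwx : w = x := by
    refine T2 h hB hy hw (p1.out x hx) pO.out pO.card pO.nm hxO ?_ hrep ?_
    · intro p hp q hq t ht h1 h2 h3
      rcases ht with ⟨i, g⟩ | g | g | g
      · exact tall p (Finset.mem_insert_of_mem hp) q (Finset.mem_insert_of_mem hq) h1 i t g
      · exact pO.pg p hp q hq t (Or.inr (Or.inr (Or.inr g))) h1 h2 h3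
      · exact pO.pg p hp q hq t (Or.inr (Or.inr (Or.inl g))) h1 h2 h3
      · obtain ⟨P, pc, hP⟩ := k01 x (Finset.mem_insert_self _ _)
        exact pc.pg p (hP p (Finset.mem_insert_of_mem hp) (fun e => hxO (e ▸ hp))) q
          (hP q (Finset.mem_insert_of_mem hq) (fun e => hxO (e ▸ hq))) t
          (Or.inr (Or.inr (Or.inl g))) h1 h2 h3
    · intro p hp
      exact h.s2 _ _ _ (tall x (Finset.mem_insert_self _ _) p (Finset.mem_insert_of_mem hp)
        (fun e => hxO (e ▸ hp)) 0 y hy)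
  exact ⟨insert x O, hwx ▸ Finset.mem_insert_self _ _, hDc, hDo,
    fun p hp q hq hpq => ⟨tall p hp q hq hpq 0, tall p hp q hq hpq 1⟩⟩

omit [Fintype V] in
theorem dvd_of_classes (S : Finset V) (D : V → Finset V) (k : ℕ)
    (hD : ∀ w ∈ S, w ∈ D w ∧ D w ⊆ S ∧ (D w).card = k ∧ ∀ p ∈ D w, D p = D w) : k ∣ S.card := by
  rw [Finset.card_eq_sum_card_image D S]
  refine Finset.dvd_sum (fun b hb => ?_)
  obtain ⟨w, hw, rfl⟩ := Finset.mem_image.1 hb
  have : S.filter (fun a => D a = D w) = D w := by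
    ext p
    rw [Finset.mem_filter]
    exact ⟨fun g => g.2 ▸ (hD p g.1).1, fun g => ⟨(hD w hw).2.1 g, (hD w hw).2.2.2 p g⟩⟩
  rw [this, (hD w hw).2.2.1]

theorem Clean.dvd (h : Hyp E) {B : Fin 6 → Finset V} (hc : Clean E B) : 40 ∣ Fintype.card V := by
  classical
  have hB := hc.blocks h
  let D : V → Finset V := fun z => insert z (univ.filter (fun s => Out B s ∧ z ≠ s ∧
    Thick E (B 0) z s ∧ Thick E (B 1) z s))
  have hle : ∀ z, Out B z → (D z).card ≤ 40 := by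
    intro z hz
    obtain ⟨P, pc⟩ := hc.piece h (i := 2) (j := 3) (by decide) hz
    have : D z ⊆ insert z P := by
      refine Finset.insert_subset_insert z (fun s hs => ?_)
      obtain ⟨g1, g2, g3, g4⟩ := (Finset.mem_filter.1 hs).2
      exact T3g h hB ![2, 3, 0, 1, 4, 5] (by decide) hz g1 pc g2 g3 g4
    have h1 := Finset.card_le_card this
    rw [Finset.card_insert_of_notMem pc.nm, pc.card] at h1
    exact h1
  have h1 : 40 ∣ (univ.filter (Out B)).card := by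
    refine dvd_of_classes _ D 40 (fun w hw => ?_)
    obtain ⟨K, k1, k2, k3, k4⟩ := hc.clique h (Finset.mem_filter.1 hw).2
    have key : ∀ p ∈ K, K = D p := by
      intro p hp
      refine Finset.eq_of_subset_of_card_le (fun s hs => ?_) (k2 ▸ hle p (k3 p hp))
      by_cases e : s = p
      · exact e ▸ Finset.mem_insert_self _ _
      · exact Finset.mem_insert_of_mem (Finset.mem_filter.2 ⟨mem_univ _, k3 s hs, Ne.symm e,
          k4 p hp s hs (Ne.symm e)⟩)
    rw [← key w k1]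
    exact ⟨k1, fun p hp => Finset.mem_filter.2 ⟨mem_univ _, k3 p hp⟩, k2,
      fun p hp => (key p hp).symm⟩
  have h2 : (univ.filter (fun w => ¬Out B w)).card = 240 := by
    have : univ.filter (fun w => ¬Out B w) = (univ : Finset (Fin 6)).biUnion B := by
      ext w
      simp [Out]
    rw [this, Finset.card_biUnion (fun i _ j _ hij => hc.disj i j hij)]
    simp [hc.card]
  have h3 := Finset.card_filter_add_card_filter_not (s := (univ : Finset V)) (Out B)
  rw [Finset.card_univ] at h3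
  omega

end Pool.Agent.MP_038f7f_co.H77
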