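import Mathlib
import Pool.Agent.MP_038f7f_co.h77.StepOneA
import Pool.Agent.MP_038f7f_co.h77.StepTwo

/-!
From few non-tight triples to six clean blocks.
-/

set_option autoImplicit false

namespace Pool.Agent.MP_038f7f_co.H77

open Finset

variable {V : Type} [Fintype V] [DecidableEq V] {E : V → V → V → Prop}

omit [Fintype V] in
theorem greedy (S : Finset V) (g : V → V → Prop) (hs : ∀ x y, g x y → g y x)
    (hd : ∀ x ∈ S, ¬g x x) (hS : 0 < S.card)
    (hb : 24 * ∑ x ∈ S, ∑ y ∈ S, ind (¬g x y) ≤ S.card ^ 2) :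
    ∃ f : Fin 6 → V, (∀ i, f i ∈ S) ∧ ∀ i j, i ≠ j → g (f i) (f j) := by
  classical
  set L := S.filter (fun x => 12 * (S.filter (fun y => ¬g x y)).card ≤ S.card) with hL
  have h1 : S.card ≤ 2 * L.card := by
    have a1 := Finset.card_filter_add_card_filter_not (s := S)
      (fun x => 12 * (S.filter (fun y => ¬g x y)).card ≤ S.card)
    set L' := S.filter (fun x => ¬12 * (S.filter (fun y => ¬g x y)).card ≤ S.card) with hL'
    have a2 : L'.card * S.card ≤ ∑ x ∈ L', 12 * (S.filter (fun y => ¬g x y)).card := by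
      rw [← smul_eq_mul, ← Finset.sum_const]
      exact Finset.sum_le_sum (fun x hx => le_of_lt (not_le.1 (Finset.mem_filter.1 hx).2))
    have a3 : ∑ x ∈ L', 12 * (S.filter (fun y => ¬g x y)).card ≤
        12 * ∑ x ∈ S, ∑ y ∈ S, ind (¬g x y) := by
      rw [Finset.mul_sum]
      refine (Finset.sum_le_sum_of_subset (Finset.filter_subset _ _)).trans (le_of_eq ?_)
      exact Finset.sum_congr rfl (fun x _ => by rw [sum_ind])
    have a4 : (2 * L'.card) * S.card ≤ S.card * S.card := by nlinarith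
    have a5 := Nat.le_of_mul_le_mul_right a4 hS
    rw [← hL] at a1
    omega
  have h2 : ∀ m, m ≤ 6 → ∃ T ⊆ L, T.card = m ∧ ∀ x ∈ T, ∀ y ∈ T, x ≠ y → g x y := by
    intro m
    induction m with
    | zero => exact fun _ => ⟨∅, by simp, rfl, by simp⟩
    | succ m ih =>
      intro hm
      obtain ⟨T, t1, t2, t3⟩ := ih (by omega)
      have b1 : (T.biUnion (fun x => S.filter (fun y => ¬g x y))).card ≤ T.card * (S.card / 12) :=
        Finset.card_biUnion_le_card_mul _ _ _ (fun x hx => by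
          have := (Finset.mem_filter.1 (t1 hx)).2
          omega)
      have b2 : T.card * (S.card / 12) ≤ 5 * (S.card / 12) :=
        Nat.mul_le_mul_right _ (by omega)
      obtain ⟨y, hy, hy'⟩ := exists_avoid L (T.biUnion (fun x => S.filter (fun y => ¬g x y)))
        (by omega)
      have hyS : y ∈ S := (Finset.mem_filter.1 hy).1
      have b3 : ∀ x ∈ T, g x y := by
        intro x hx
        by_contra hn
        exact hy' (Finset.mem_biUnion.2 ⟨x, hx, Finset.mem_filter.2 ⟨hyS, hn⟩⟩)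
      have b4 : y ∉ T := fun hT => hd y hyS (b3 y hT)
      refine ⟨insert y T, Finset.insert_subset hy t1, by rw [Finset.card_insert_of_notMem b4, t2],
        fun a ha b hb hab => ?_⟩
      rcases Finset.mem_insert.1 ha with e1 | e1 <;> rcases Finset.mem_insert.1 hb with e2 | e2
      · exact absurd (e1.trans e2.symm) hab
      · exact e1 ▸ hs _ _ (b3 b e2)
      · exact e2 ▸ b3 a e1
      · exact t3 a e1 b e2 hab
  obtain ⟨T, t1, t2, t3⟩ := h2 6 le_rfl
  let e := (Finset.equivFinOfCardEq t2).symm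
  exact ⟨fun i => (e i : V), fun i => (Finset.mem_filter.1 (t1 (e i).2)).1,
    fun i j hij => t3 _ (e i).2 _ (e j).2 (fun h => hij (e.injective (Subtype.ext h)))⟩

theorem Tight.swap (h : Hyp E) {x y z : V} (t : Tight E x y z) : Tight E x z y := by
  obtain ⟨X, Y, Z, t, a, b, c⟩ := t
  exact ⟨X, Z, Y, t.swap23 h, b, a, by rw [h.N_comm, c, Finset.union_comm]⟩

/-- a fine pair in the link of `x` -/
def Fine (E : V → V → V → Prop) (x : V) (P : Finset V) (y z : V) : Prop :=
  Tight E x y z ∧ N E x y ∩ N E x z ⊆ P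

theorem Fine.swap (h : Hyp E) {x y z : V} {P : Finset V} (f : Fine E x P y z) : Fine E x P z y :=
  ⟨f.1.swap h, by rw [Finset.inter_comm]; exact f.2⟩

theorem Fine.ne (h : Hyp E) {x y z : V} {P : Finset V} (f : Fine E x P y z) : y ≠ z := by
  obtain ⟨X, Y, Z, t, -⟩ := f.1
  obtain ⟨s, hs⟩ : Y.Nonempty := Finset.card_pos.1 (by rw [t.cY]; norm_num)
  exact h.ne _ _ _ (t.eY s hs).2

theorem row_sub {x y z : V} {P X Y Z : Finset V} (t : TB E x y z X Y Z)
    (hP : N E x y ∩ N E x z ⊆ P) : X ⊆ N E x y ∩ P := fun s hs =>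
  Finset.mem_inter.2 ⟨mem_N.2 (t.eX s hs).1,
    hP (Finset.mem_inter.2 ⟨mem_N.2 (t.eX s hs).1, mem_N.2 (t.eX s hs).2⟩)⟩

theorem row_eq {x y z : V} {P X Y Z : Finset V} (t : TB E x y z X Y Z) (a : N E x y = X ∪ Y)
    (hP : N E x y ∩ N E x z ⊆ P) (hc : (N E x y ∩ P).card ≤ 39) : Y = N E x y \ P := by
  have h1 := row_sub t hP
  have h2 : X = N E x y ∩ P := Finset.eq_of_subset_of_card_le h1 (by rw [t.cX]; exact hc)
  ext s
  rw [Finset.mem_sdiff]
  constructor
  · intro hs
    have g : s ∈ N E x y := by rw [a]; exact Finset.mem_union_right _ hs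
    exact ⟨g, fun g' => Finset.disjoint_left.1 t.dXY (h2 ▸ Finset.mem_inter.2 ⟨g, g'⟩) hs⟩
  · rintro ⟨g, g'⟩
    rw [a] at g
    exact (Finset.mem_union.1 g).resolve_left (fun k => g' (Finset.mem_inter.1 (h1 k)).2)

theorem Fine.cards {x y z : V} {P : Finset V} (f : Fine E x P y z) :
    (N E x y).card = 78 ∧ 39 ≤ (N E x y ∩ P).card := by
  obtain ⟨X, Y, Z, t, a, -⟩ := f.1
  refine ⟨by rw [a, Finset.card_union_of_disjoint t.dXY, t.cX, t.cY], ?_⟩
  rw [← t.cX]
  exact Finset.card_le_card (row_sub t f.2)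

theorem Fine.row (h : Hyp E) {x y z : V} {P : Finset V} (f : Fine E x P y z)
    (hc : (N E x y ∩ P).card ≤ 39) :
    (N E x y \ P).card = 39 ∧ ∀ p ∈ N E x y \ P, ∀ q ∈ N E x y \ P, p ≠ q → E x p q := by
  obtain ⟨X, Y, Z, t, a, -⟩ := f.1
  rw [← row_eq t a f.2 hc]
  exact ⟨t.cY, fun p hp q hq hpq => h.r2 (t.pg Y (Or.inr (Or.inl rfl)) p hp q hq x (Or.inl rfl) hpq
    (h.ne13 (t.eY p hp).1).symm (h.ne13 (t.eY q hq).1).symm)⟩

theorem Fine.nbr (h : Hyp E) {x y z : V} {P : Finset V} (f : Fine E x P y z)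
    (hc : (N E x y ∩ P).card ≤ 39) (hc' : (N E x z ∩ P).card ≤ 39) {s : V} (e : E y z s) :
    s ∈ N E x y \ P ∨ s ∈ N E x z \ P := by
  obtain ⟨X, Y, Z, t, a, b, c⟩ := f.1
  rw [← row_eq t a f.2 hc, ← row_eq (t.swap23 h) b (by rw [Finset.inter_comm]; exact f.2) hc',
    ← Finset.mem_union, ← c]
  exact mem_N.2 e

theorem link_count (h : Hyp E) (x : V) (P : Finset V) :
    ∑ y ∈ Pᶜ, ((N E x y).card + (N E x y ∩ P).card) ≤ ∑ y, (N E x y).card := by
  rw [Finset.sum_add_distrib, ← Finset.sum_add_sum_compl P, add_comm]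
  refine Nat.add_le_add_right ?_ _
  have h1 : ∀ y, (N E x y ∩ P).card = ∑ s ∈ P, ind (E x y s) := by
    classical
    intro y
    rw [sum_ind]
    exact congrArg Finset.card (by ext s; simp [mem_N, and_comm])
  simp only [h1]
  rw [Finset.sum_comm]
  refine Finset.sum_le_sum (fun s _ => ?_)
  rw [← sum_ind_E]
  refine (Finset.sum_le_sum_of_subset (Finset.subset_univ _)).trans (Finset.sum_le_sum ?_)
  intro y _
  by_cases e : E x y s
  · rw [ind_pos e, ind_pos (h.s2 _ _ _ e)]
  · rw [ind_neg e]; omega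

theorem nonfine (h : Hyp E) (x : V) (P : Finset V) :
    ∑ y, ∑ z, ind (¬Fine E x P y z) ≤
      ∑ y, ∑ z, ind (¬Tight E x y z) + ∑ s ∈ Pᶜ, (N E x s).card * (N E x s).card := by
  have h1 : ∑ s ∈ Pᶜ, (N E x s).card * (N E x s).card =
      ∑ y, ∑ z, ∑ s ∈ Pᶜ, ind (E x s y) * ind (E x s z) := by
    simp only [← sum_ind_E, Finset.sum_mul_sum]
    rw [Finset.sum_comm]
    exact Finset.sum_congr rfl (fun y _ => Finset.sum_comm)
  rw [h1, ← Finset.sum_add_distrib]
  refine Finset.sum_le_sum (fun y _ => ?_)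
  rw [← Finset.sum_add_distrib]
  refine Finset.sum_le_sum (fun z _ => ?_)
  by_cases f : Fine E x P y z
  · rw [ind_neg (not_not.2 f)]; omega
  · rw [ind_pos f]
    by_cases t : Tight E x y z
    · obtain ⟨s, hs, hs'⟩ := Finset.not_subset.1 (fun g => f ⟨t, g⟩)
      obtain ⟨e1, e2⟩ := Finset.mem_inter.1 hs
      have := Finset.single_le_sum (f := fun s => ind (E x s y) * ind (E x s z))
        (fun _ _ => Nat.zero_le _) (Finset.mem_compl.2 hs')
      rw [ind_pos (h.s2 _ _ _ (mem_N.1 e1)), ind_pos (h.s2 _ _ _ (mem_N.1 e2))] at this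
      omega
    · rw [ind_pos t]; omega

theorem clean_of_link (h : Hyp E) (x : V) (P : Finset V) (hn : 10 ^ 50 ≤ Fintype.card V)
    (hd : 1000 * ∑ y, (N E x y).card ≤ 117001 * Fintype.card V) (hP : P.card ≤ 10 ^ 11)
    (hf : 10 ^ 8 * ∑ y, ∑ z, ind (¬Fine E x P y z) ≤ 235 * Fintype.card V ^ 2) :
    ∃ B, Clean E B := by
  classical
  set U := univ.filter (fun y => ∀ z, ¬Fine E x P y z) with hU
  have u1 : 10 ^ 8 * U.card ≤ 235 * Fintype.card V := by
    have a1 : U.card * Fintype.card V ≤ ∑ y, ∑ z, ind (¬Fine E x P y z) := by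
      rw [← smul_eq_mul, ← Finset.sum_const]
      refine le_trans (Finset.sum_le_sum (fun y hy => ?_))
        (Finset.sum_le_sum_of_subset (Finset.subset_univ U))
      rw [Finset.sum_congr rfl (fun z _ => ind_pos ((Finset.mem_filter.1 hy).2 z))]
      simp
    have a2 : (10 ^ 8 * U.card) * Fintype.card V ≤ (235 * Fintype.card V) * Fintype.card V := by
      nlinarith
    exact Nat.le_of_mul_le_mul_right a2 (by omega)
  set R1 := univ.filter (fun y => y ∉ P ∧ (∃ z, Fine E x P y z) ∧ (N E x y ∩ P).card ≤ 39) with hR1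
  set R' := univ.filter (fun y => y ∉ P ∧ (∃ z, Fine E x P y z) ∧ ¬(N E x y ∩ P).card ≤ 39)
    with hR'
  have cov : Fintype.card V ≤ R1.card + R'.card + P.card + U.card := by
    have : (univ : Finset V) ⊆ R1 ∪ R' ∪ P ∪ U := by
      intro y _
      simp only [hR1, hR', hU, Finset.mem_union, Finset.mem_filter, Finset.mem_univ, true_and]
      by_cases a : y ∈ P
      · tauto
      · by_cases b : ∃ z, Fine E x P y z
        · tauto
        · exact Or.inr (not_exists.1 b)
    have a1 := Finset.card_le_card this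
    have a2 := Finset.card_union_le (R1 ∪ R' ∪ P) U
    have a3 := Finset.card_union_le (R1 ∪ R') P
    have a4 := Finset.card_union_le R1 R'
    rw [Finset.card_univ] at a1
    omega
  have lc := link_count h x P
  have sub1 : R1 ⊆ Pᶜ := fun y hy => Finset.mem_compl.2 (Finset.mem_filter.1 hy).2.1
  have l1 : R1.card * 117 ≤ ∑ y ∈ R1, ((N E x y).card + (N E x y ∩ P).card) := by
    rw [← smul_eq_mul, ← Finset.sum_const]
    refine Finset.sum_le_sum (fun y hy => ?_)
    obtain ⟨z, f⟩ := (Finset.mem_filter.1 hy).2.2.1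
    have := f.cards
    omega
  have l2 : R'.card * 118 ≤ ∑ y ∈ Pᶜ \ R1, ((N E x y).card + (N E x y ∩ P).card) := by
    rw [← smul_eq_mul, ← Finset.sum_const]
    refine le_trans (Finset.sum_le_sum (fun y hy => ?_)) (Finset.sum_le_sum_of_subset
      (fun y hy => ?_))
    · obtain ⟨-, ⟨z, f⟩, g⟩ := (Finset.mem_filter.1 hy).2
      have := f.cards
      omega
    · obtain ⟨g1, -, g⟩ := (Finset.mem_filter.1 hy).2
      exact Finset.mem_sdiff.2 ⟨Finset.mem_compl.2 g1, fun k => g (Finset.mem_filter.1 k).2.2.2⟩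
  have l3 : ∑ y ∈ Pᶜ \ R1, (N E x y).card ≤
      ∑ y ∈ Pᶜ \ R1, ((N E x y).card + (N E x y ∩ P).card) :=
    Finset.sum_le_sum (fun y _ => Nat.le_add_right _ _)
  rw [← Finset.sum_sdiff sub1] at lc
  set R2 := R1.filter (fun y => N E x y \ P ⊆ R1) with hR2
  have l4 : R1.card ≤ R2.card + ∑ y ∈ Pᶜ \ R1, (N E x y).card := by
    have : R1 ⊆ R2 ∪ (Pᶜ \ R1).biUnion (fun y => N E x y) := by
      intro y hy
      by_cases g : N E x y \ P ⊆ R1
      · exact Finset.mem_union_left _ (Finset.mem_filter.2 ⟨hy, g⟩)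
      · obtain ⟨p, hp, hp'⟩ := Finset.not_subset.1 g
        obtain ⟨g1, g2⟩ := Finset.mem_sdiff.1 hp
        exact Finset.mem_union_right _ (Finset.mem_biUnion.2 ⟨p, Finset.mem_sdiff.2
          ⟨Finset.mem_compl.2 g2, hp'⟩, mem_N.2 (h.s2 _ _ _ (mem_N.1 g1))⟩)
    exact (Finset.card_le_card this).trans ((Finset.card_union_le _ _).trans
      (Nat.add_le_add_left Finset.card_biUnion_le _))
  have big : Fintype.card V ≤ 2 * R2.card := by
    clear hf
    omega
  let B : V → Finset V := fun y => insert y (N E x y \ P)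
  have nB : ∀ y, y ∉ N E x y \ P := fun y hy =>
    h.ne23 (mem_N.1 (Finset.mem_sdiff.1 hy).1) rfl
  have r1 : ∀ y ∈ R1, (N E x y \ P).card = 39 ∧
      ∀ p ∈ N E x y \ P, ∀ q ∈ N E x y \ P, p ≠ q → E x p q := by
    intro y hy
    obtain ⟨-, ⟨z, f⟩, g⟩ := (Finset.mem_filter.1 hy).2
    exact f.row h g
  have cB : ∀ y ∈ R1, (B y).card = 40 := by
    intro y hy
    rw [Finset.card_insert_of_notMem (nB y), (r1 y hy).1]
  have kB : ∀ y ∈ R2, ∀ s ∈ B y, s ∈ R1 ∧ B s = B y := by
    intro y hy s hs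
    obtain ⟨y1, y2⟩ := Finset.mem_filter.1 hy
    rcases Finset.mem_insert.1 hs with e | g
    · rw [e]; exact ⟨y1, rfl⟩
    · refine ⟨y2 g, (Finset.eq_of_subset_of_card_le (fun t ht => ?_)
        (by rw [cB y y1, cB s (y2 g)])).symm⟩
      by_cases e : t = s
      · exact e ▸ Finset.mem_insert_self _ _
      · refine Finset.mem_insert_of_mem (Finset.mem_sdiff.2 ?_)
        rcases Finset.mem_insert.1 ht with e' | g'
        · rw [e']
          exact ⟨mem_N.2 (h.s2 _ _ _ (mem_N.1 (Finset.mem_sdiff.1 g).1)),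
            (Finset.mem_filter.1 y1).2.1⟩
        · exact ⟨mem_N.2 ((r1 y y1).2 s g t g' (Ne.symm e)), (Finset.mem_sdiff.1 g').2⟩
  let g : V → V → Prop := fun y y' => ∀ s ∈ B y, ∀ s' ∈ B y', Fine E x P s s'
  have cnt1 : ∑ y ∈ R2, ∑ y' ∈ R2, ind (¬g y y') ≤ 1600 * ∑ y, ∑ z, ind (¬Fine E x P y z) := by
    rw [← Finset.sum_product' R2 R2 (fun y y' => ind (¬g y y')), sum_ind,
      ← Finset.sum_product' univ univ (fun y z => ind (¬Fine E x P y z)), sum_ind]
    have : (R2 ×ˢ R2).filter (fun t => ¬g t.1 t.2) ⊆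
        ((R1 ×ˢ R1).filter (fun t => ¬Fine E x P t.1 t.2)).biUnion (fun t => B t.1 ×ˢ B t.2) := by
      intro t ht
      obtain ⟨a1, a2⟩ := Finset.mem_filter.1 ht
      obtain ⟨a3, a4⟩ := Finset.mem_product.1 a1
      simp only [g, not_forall] at a2
      obtain ⟨s, hs, s', hs', hn'⟩ := a2
      refine Finset.mem_biUnion.2 ⟨(s, s'), Finset.mem_filter.2 ⟨Finset.mem_product.2
        ⟨(kB _ a3 s hs).1, (kB _ a4 s' hs').1⟩, hn'⟩, Finset.mem_product.2 ⟨?_, ?_⟩⟩
      · rw [(kB _ a3 s hs).2]; exact Finset.mem_insert_self _ _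
      · rw [(kB _ a4 s' hs').2]; exact Finset.mem_insert_self _ _
    refine (Finset.card_le_card this).trans
      ((Finset.card_biUnion_le_card_mul _ _ 1600 (fun t ht => ?_)).trans ?_)
    · obtain ⟨a3, a4⟩ := Finset.mem_product.1 (Finset.mem_filter.1 ht).1
      rw [Finset.card_product, cB _ a3, cB _ a4]
    · rw [mul_comm]
      exact Nat.mul_le_mul_left _ (Finset.card_le_card (Finset.filter_subset_filter _
        (Finset.product_subset_product (Finset.subset_univ _) (Finset.subset_univ _))))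
  obtain ⟨f, f1, f2⟩ := greedy R2 g (fun y y' k s hs s' hs' => (k s' hs' s hs).swap h)
    (fun y _ k => (k y (Finset.mem_insert_self _ _) y (Finset.mem_insert_self _ _)).ne h rfl)
    (by omega) (by
      have a1 : Fintype.card V ^ 2 ≤ (2 * R2.card) ^ 2 := Nat.pow_le_pow_left big 2
      rw [mul_pow] at a1
      omega)
  refine ⟨fun i => B (f i), fun i => cB _ (Finset.mem_filter.1 (f1 i)).1, fun i j hij =>
    Finset.disjoint_left.2 (fun s hs hs' => (f2 i j hij s hs s hs').ne h rfl),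
    fun i j hij s hs s' hs' t e => ?_⟩
  obtain ⟨a1, a2⟩ := kB _ (f1 i) s hs
  obtain ⟨a3, a4⟩ := kB _ (f1 j) s' hs'
  rw [← a2, ← a4]
  exact ((f2 i j hij s hs s' hs').nbr h (Finset.mem_filter.1 a1).2.2.2
    (Finset.mem_filter.1 a3).2.2.2 e).imp Finset.mem_insert_of_mem Finset.mem_insert_of_mem

theorem lower (h : Hyp E) (hn : 10 ^ 50 ≤ Fintype.card V)
    (hc : 10 ^ 12 * cnt E ≤ (117 * 10 ^ 12 + 1) * Fintype.card V ^ 2) : 40 ∣ Fintype.card V := by
  classical
  have h1 := nontight h hn hc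
  have hne : (univ : Finset V).Nonempty := by
    rw [← Finset.card_pos, Finset.card_univ]; omega
  obtain ⟨x, -, hx⟩ := Finset.exists_le_of_sum_le hne
    (f := fun x => 1000 * (Fintype.card V * ∑ y, (N E x y).card) +
      10 ^ 11 * ∑ y, ∑ z, ind (¬Tight E x y z))
    (g := fun _ => 117001 * Fintype.card V ^ 2) (by
      rw [Finset.sum_add_distrib, ← Finset.mul_sum, ← Finset.mul_sum, ← Finset.mul_sum, ← cnt_eq,
        Finset.sum_const, Finset.card_univ, smul_eq_mul]
      change _ + 10 ^ 11 * S3 (fun x y z => ind (¬Tight E x y z)) ≤ _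
      generalize S3 (fun x y z => ind (¬Tight E x y z)) = ν at *
      generalize cnt E = c at *
      generalize Fintype.card V = n at *
      have k2 : 10 ^ 12 * (n * c) ≤ (117 * 10 ^ 12 + 1) * n ^ 3 := by nlinarith
      have k3 : n * (117001 * n ^ 2) = 117001 * n ^ 3 := by ring
      rw [k3]
      omega)
  have hd : 1000 * ∑ y, (N E x y).card ≤ 117001 * Fintype.card V := by
    have : (1000 * ∑ y, (N E x y).card) * Fintype.card V ≤
        (117001 * Fintype.card V) * Fintype.card V :=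
      calc _ = 1000 * (Fintype.card V * ∑ y, (N E x y).card) := by ring
        _ ≤ 117001 * Fintype.card V ^ 2 := le_trans (Nat.le_add_right _ _) hx
        _ = _ := by ring
    exact Nat.le_of_mul_le_mul_right this (by omega)
  set P := univ.filter (fun s => Fintype.card V ≤ 10 ^ 8 * (N E x s).card) with hP
  have p1 : P.card * Fintype.card V ≤ 10 ^ 8 * ∑ y, (N E x y).card := by
    rw [← smul_eq_mul, ← Finset.sum_const, Finset.mul_sum]
    exact le_trans (Finset.sum_le_sum (fun y hy => (Finset.mem_filter.1 hy).2))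
      (Finset.sum_le_sum_of_subset (Finset.subset_univ P))
  have p2 : P.card ≤ 10 ^ 11 :=
    Nat.le_of_mul_le_mul_right (c := Fintype.card V) (by omega) (by omega)
  have p3 : 10 ^ 8 * ∑ s ∈ Pᶜ, (N E x s).card * (N E x s).card ≤
      Fintype.card V * ∑ y, (N E x y).card := by
    rw [Finset.mul_sum, Finset.mul_sum]
    refine le_trans (Finset.sum_le_sum (fun s hs => ?_))
      (Finset.sum_le_sum_of_subset (Finset.subset_univ Pᶜ))
    have : ¬Fintype.card V ≤ 10 ^ 8 * (N E x s).card := fun k =>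
      Finset.mem_compl.1 hs (Finset.mem_filter.2 ⟨mem_univ _, k⟩)
    rw [← mul_assoc]
    exact Nat.mul_le_mul_right _ (le_of_lt (not_le.1 this))
  have p4 := nonfine h x P
  obtain ⟨B, hB⟩ := clean_of_link h x P hn hd p2 (by omega)
  exact hB.dvd h

end Pool.Agent.MP_038f7f_co.H77
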