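import Mathlib
import Pool.Agent.MP_038f7f_co.h77.Defs

/-!
The block construction: triples with two vertices in one block.
-/

set_option autoImplicit false

namespace Pool.Agent.MP_038f7f_co.H77

open Finset

variable {V : Type} [Fintype V] [DecidableEq V]

theorem R_Q : ∀ x l : Fin 15, 6 ≤ x.val → x.val < 12 →
    l ∈ ({0, 1, 2, 3, 6, 9} : Finset (Fin 15)) → R x x l = true := by decide +kernel

theorem sz_row : ∀ x : Fin 15, 6 ≤ x.val → x.val < 12 → sz x = 39 := by decide

theorem ar1 (a b c o6 o7 o8 : ℕ) (o67 : o6 ≠ o7) (o68 : o6 ≠ o8) (o78 : o7 ≠ o8)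
    (r01 : a ≠ o6 → b = a ∨ b = o6) (r02 : a ≠ o6 → c = a ∨ c = o6)
    (r10 : b ≠ o7 → a = b ∨ a = o7) (r12 : b ≠ o7 → c = b ∨ c = o7)
    (r20 : c ≠ o8 → a = c ∨ a = o8) (r21 : c ≠ o8 → b = c ∨ b = o8)
    (m601 : a = o6 → b = o6 → False) (m701 : a = o7 → b = o7 → False)
    (m602 : a = o6 → c = o6 → False) (m802 : a = o8 → c = o8 → False)
    (m712 : b = o7 → c = o7 → False) (m812 : b = o8 → c = o8 → False)
    (he : a = b ∨ a = c ∨ b = c) : b = a ∧ c = a := by
  rcases he with h | h | h
  · have h1 : a ≠ o6 := fun e => m601 e (h ▸ e)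
    have h2 : b ≠ o7 := fun e => m701 (h ▸ e) e
    have h3 := r02 h1
    have h4 := r12 h2
    clear r01 r02 r10 r12 r20 r21 m601 m701 m602 m802 m712 m812
    omega
  · have h1 : a ≠ o6 := fun e => m602 e (h ▸ e)
    have h2 : c ≠ o8 := fun e => m802 (h ▸ e) e
    have h3 := r01 h1
    have h4 := r21 h2
    clear r01 r02 r10 r12 r20 r21 m601 m701 m602 m802 m712 m812
    omega
  · have h1 : b ≠ o7 := fun e => m712 e (h ▸ e)
    have h2 : c ≠ o8 := fun e => m812 (h ▸ e) e
    have h3 := r10 h1
    have h4 := r20 h2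
    clear r01 r02 r10 r12 r20 r21 m601 m701 m602 m802 m712 m812
    omega

theorem ar2 (a u o6 o9 : ℕ) (o69 : o6 ≠ o9) (y6 : a ≠ o6) (y9 : a ≠ o9)
    (r03 : a ≠ o6 → u = a ∨ u = o6) (r30 : u ≠ o9 → a = u ∨ a = o9) : u = a := by
  omega

theorem ar3 (a u t o6 o9 : ℕ) (o69 : o6 ≠ o9) (y6 : a ≠ o6) (y9 : a ≠ o9) (hu : u = a)
    (r0 : a ≠ o6 → t = a ∨ t = o6) (r3 : u ≠ o9 → t = u ∨ t = o9) : t = a := by
  omega

theorem ar4 (a u v l o9 oa ob : ℕ) (o9a : o9 ≠ oa) (o9b : o9 ≠ ob) (oab : oa ≠ ob)
    (y9 : a ≠ o9) (ya : a ≠ oa) (yb : a ≠ ob) (hu : u = a)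
    (r34 : u ≠ o9 → v = u ∨ v = o9) (r45 : v ≠ oa → l = v ∨ l = oa)
    (r54 : l ≠ ob → v = l ∨ v = ob) (m : v = o9 → l = o9 → False) : v = a ∧ l = a := by
  grind

theorem ar5 (a s t o6 : ℕ) (y6 : a ≠ o6) (f1 : s ≠ a) (f2 : t ≠ a)
    (r1 : a ≠ o6 → s = a ∨ s = o6) (r2 : a ≠ o6 → t = a ∨ t = o6)
    (m : s = o6 → t = o6 → False) : False := by
  grind

theorem free0 (β : V → ℕ) (hβ : ∀ b, (univ.filter (fun t => β t = b)).card ≤ 40)
    (A : Fin 15 → Finset V) :
    ¬IsCopy (fun x y z => β x = β y ∨ β x = β z ∨ β y = β z) A := by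
  intro h
  have hrow : ∀ x : Fin 15, 6 ≤ x.val → x.val < 12 → ∀ p ∈ A x, ∀ q ∈ A x, β p = β q := by
    intro x h1 h2 p hp q hq
    by_contra hne
    have hpq : p ≠ q := fun e => hne (by rw [e])
    have hc := h.card_biUnion {0, 1, 2, 3, 6, 9}
    have hs : ∑ i ∈ ({0, 1, 2, 3, 6, 9} : Finset (Fin 15)), sz i = 82 := by decide +kernel
    have hsub : ({0, 1, 2, 3, 6, 9} : Finset (Fin 15)).biUnion A ⊆
        univ.filter (fun t => β t = β p) ∪ univ.filter (fun t => β t = β q) := by
      intro t ht
      obtain ⟨l, hl, htl⟩ := Finset.mem_biUnion.1 ht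
      simp only [Finset.mem_union, Finset.mem_filter, Finset.mem_univ, true_and]
      by_cases e1 : p = t
      · left; rw [e1]
      by_cases e2 : q = t
      · right; rw [e2]
      rcases h.edge x x l (R_Q x l h1 h2 hl) p hp q hq t htl hpq e1 e2 with e | e | e
      · exact absurd e hne
      · exact Or.inl e.symm
      · exact Or.inr e.symm
    have := Finset.card_le_card hsub
    have h3 := Finset.card_union_le (univ.filter (fun t => β t = β p))
      (univ.filter (fun t => β t = β q))
    have := hβ (β p)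
    have := hβ (β q)
    omega
  have hne : ∀ x : Fin 15, (A x).Nonempty := by
    intro x
    rw [← Finset.card_pos, h.card]
    revert x
    decide
  choose r hr using hne
  have room : ∀ x : Fin 15, 6 ≤ x.val → x.val < 12 → ∀ s t, s ≠ t → s ∉ A x → t ∉ A x →
      β s = β (r x) → β t = β (r x) → False := by
    intro x h1 h2 s t hst hs ht e1 e2
    have hsub : insert s (insert t (A x)) ⊆ univ.filter (fun t => β t = β (r x)) := by
      intro w hw
      simp only [Finset.mem_insert] at hw
      simp only [Finset.mem_filter, Finset.mem_univ, true_and]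
      rcases hw with rfl | rfl | hw
      · exact e1
      · exact e2
      · exact hrow x h1 h2 w hw _ (hr x)
    have h3 := Finset.card_le_card hsub
    rw [Finset.card_insert_of_notMem (by simp [hst, hs]), Finset.card_insert_of_notMem ht,
      h.card, sz_row x h1 h2] at h3
    have := hβ (β (r x))
    omega
  have odist : ∀ x y : Fin 15, 6 ≤ x.val → x.val < 12 → 6 ≤ y.val → y.val < 12 → x ≠ y →
      β (r x) ≠ β (r y) := by
    intro x y h1 h2 h3 h4 hxy e
    have : 1 < (A y).card := by rw [h.card, sz_row y h3 h4]; norm_num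
    obtain ⟨s, hs, t, ht, hst⟩ := Finset.one_lt_card.1 this
    exact room x h1 h2 s t hst (h.not_mem hs hxy.symm) (h.not_mem ht hxy.symm)
      ((hrow y h3 h4 s hs _ (hr y)).trans e.symm) ((hrow y h3 h4 t ht _ (hr y)).trans e.symm)
  have rule : ∀ x y l : Fin 15, R x y l = true → x ≠ y → x ≠ l → y ≠ l → ∀ t ∈ A l,
      β (r x) ≠ β (r y) → β t = β (r x) ∨ β t = β (r y) := by
    intro x y l hR h1 h2 h3 t ht hn
    rcases h.edge x y l hR _ (hr x) _ (hr y) t ht (h.ne_of (hr x) (hr y) h1)
      (h.ne_of (hr x) ht h2) (h.ne_of (hr y) ht h3) with e | e | e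
    · exact absurd e hn
    · exact Or.inl e.symm
    · exact Or.inr e.symm
  have room' : ∀ x i j : Fin 15, 6 ≤ x.val → x.val < 12 → i ≠ j → i ≠ x → j ≠ x →
      β (r i) = β (r x) → β (r j) = β (r x) → False := fun x i j h1 h2 h3 h4 h5 =>
    room x h1 h2 _ _ (h.ne_of (hr i) (hr j) h3) (h.not_mem (hr i) h4) (h.not_mem (hr j) h5)
  have rule' : ∀ x y l : Fin 15, R x y l = true → x ≠ y → x ≠ l → y ≠ l →
      β (r x) ≠ β (r y) → β (r l) = β (r x) ∨ β (r l) = β (r y) :=
    fun x y l hR h1 h2 h3 => rule x y l hR h1 h2 h3 _ (hr l)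
  have o67 := odist 6 7 (by decide) (by decide) (by decide) (by decide) (by decide)
  have o68 := odist 6 8 (by decide) (by decide) (by decide) (by decide) (by decide)
  have o78 := odist 7 8 (by decide) (by decide) (by decide) (by decide) (by decide)
  have o69 := odist 6 9 (by decide) (by decide) (by decide) (by decide) (by decide)
  have o9a := odist 9 10 (by decide) (by decide) (by decide) (by decide) (by decide)
  have o9b := odist 9 11 (by decide) (by decide) (by decide) (by decide) (by decide)
  have oab := odist 10 11 (by decide) (by decide) (by decide) (by decide) (by decide)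
  have habc : β (r 1) = β (r 0) ∧ β (r 2) = β (r 0) := by
    have r01 := rule' 0 6 1 (by decide) (by decide) (by decide) (by decide)
    have r02 := rule' 0 6 2 (by decide) (by decide) (by decide) (by decide)
    have r10 := rule' 1 7 0 (by decide) (by decide) (by decide) (by decide)
    have r12 := rule' 1 7 2 (by decide) (by decide) (by decide) (by decide)
    have r20 := rule' 2 8 0 (by decide) (by decide) (by decide) (by decide)
    have r21 := rule' 2 8 1 (by decide) (by decide) (by decide) (by decide)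
    have m601 := room' 6 0 1 (by decide) (by decide) (by decide) (by decide) (by decide)
    have m701 := room' 7 0 1 (by decide) (by decide) (by decide) (by decide) (by decide)
    have m602 := room' 6 0 2 (by decide) (by decide) (by decide) (by decide) (by decide)
    have m802 := room' 8 0 2 (by decide) (by decide) (by decide) (by decide) (by decide)
    have m712 := room' 7 1 2 (by decide) (by decide) (by decide) (by decide) (by decide)
    have m812 := room' 8 1 2 (by decide) (by decide) (by decide) (by decide) (by decide)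
    have he := h.edge 0 1 2 (by decide) _ (hr 0) _ (hr 1) _ (hr 2)
      (h.ne_of (hr 0) (hr 1) (by decide)) (h.ne_of (hr 0) (hr 2) (by decide))
      (h.ne_of (hr 1) (hr 2) (by decide))
    exact ar1 _ _ _ _ _ _ o67 o68 o78 r01 r02 r10 r12 r20 r21 m601 m701 m602 m802 m712 m812 he
  obtain ⟨hb, hc⟩ := habc
  have hY : ∀ x : Fin 15, 6 ≤ x.val → x.val < 12 → β (r 0) ≠ β (r x) := by
    intro x h1 h2 e
    exact room' x 0 1 h1 h2 (by decide) (by rintro rfl; simp at h1) (by rintro rfl; simp at h1) e
      (hb.trans e)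
  have y6 := hY 6 (by decide) (by decide)
  have y9 := hY 9 (by decide) (by decide)
  have ya := hY 10 (by decide) (by decide)
  have yb := hY 11 (by decide) (by decide)
  have hu : β (r 3) = β (r 0) := by
    have r03 := rule' 0 6 3 (by decide) (by decide) (by decide) (by decide)
    have r30 := rule' 3 9 0 (by decide) (by decide) (by decide) (by decide)
    exact ar2 _ _ _ _ o69 y6 y9 r03 r30
  have hT : ∀ t ∈ A 14, β t = β (r 0) := by
    intro t ht
    have r0 := rule 0 6 14 (by decide) (by decide) (by decide) (by decide) t ht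
    have r3 := rule 3 9 14 (by decide) (by decide) (by decide) (by decide) t ht
    exact ar3 _ _ _ _ _ o69 y6 y9 hu r0 r3
  have hvl : β (r 4) = β (r 0) ∧ β (r 5) = β (r 0) := by
    have r34 := rule' 3 9 4 (by decide) (by decide) (by decide) (by decide)
    have r45 := rule' 4 10 5 (by decide) (by decide) (by decide) (by decide)
    have r54 := rule' 5 11 4 (by decide) (by decide) (by decide) (by decide)
    have m945 := room' 9 4 5 (by decide) (by decide) (by decide) (by decide) (by decide)
    exact ar4 _ _ _ _ _ _ _ o9a o9b oab y9 ya yb hu r34 r45 r54 m945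
  have hsing : ∀ i : Fin 15, sz i = 1 → ∀ t ∈ A i, t = r i := by
    intro i hi t ht
    obtain ⟨p, hp⟩ := h.single i hi
    have h1 := hr i
    rw [hp, Finset.mem_singleton] at ht h1
    rw [ht, h1]
  have hfull : ∀ i : Fin 15, i = 12 ∨ i = 13 → β (r i) ≠ β (r 0) := by
    intro i hi e
    have hc' := h.card_biUnion {0, 1, 2, 3, 4, 5, 14, i}
    have hs : ∑ j ∈ ({0, 1, 2, 3, 4, 5, 14, i} : Finset (Fin 15)), sz j = 41 := by
      rcases hi with rfl | rfl <;> decide +kernel
    have hsub : ({0, 1, 2, 3, 4, 5, 14, i} : Finset (Fin 15)).biUnion A ⊆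
        univ.filter (fun t => β t = β (r 0)) := by
      intro t ht
      obtain ⟨l, hl, htl⟩ := Finset.mem_biUnion.1 ht
      simp only [Finset.mem_filter, Finset.mem_univ, true_and]
      simp only [Finset.mem_insert, Finset.mem_singleton] at hl
      rcases hl with rfl | rfl | rfl | rfl | rfl | rfl | rfl | rfl
      · rw [hsing _ (by decide) t htl]
      · rw [hsing _ (by decide) t htl, hb]
      · rw [hsing _ (by decide) t htl, hc]
      · rw [hsing _ (by decide) t htl, hu]
      · rw [hsing _ (by decide) t htl, hvl.1]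
      · rw [hsing _ (by decide) t htl, hvl.2]
      · exact hT t htl
      · rw [hsing _ (by rcases hi with rfl | rfl <;> decide) t htl, e]
    have h5 := Finset.card_le_card hsub
    have h6 := hβ (β (r 0))
    rw [hc', hs] at h5
    exact absurd (h5.trans h6) (by norm_num)
  have f1 := hfull 12 (Or.inl rfl)
  have f2 := hfull 13 (Or.inr rfl)
  have r1 := rule' 0 6 12 (by decide) (by decide) (by decide) (by decide)
  have r2 := rule' 0 6 13 (by decide) (by decide) (by decide) (by decide)
  have m := room' 6 12 13 (by decide) (by decide) (by decide) (by decide) (by decide)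
  exact ar5 _ _ _ _ y6 f1 f2 r1 r2 m

/-- block of each class in the completion of a transversal triple -/
def gS : Fin 15 → Fin 7 := ![0, 1, 2, 3, 4, 5, 0, 1, 2, 3, 4, 5, 6, 6, 6]

/-- container of each class in the completion of a transversal triple -/
def plS : Fin 15 → Fin 7 ⊕ Fin 3 :=
  ![.inr 0, .inr 1, .inr 2, .inl 3, .inl 4, .inl 5, .inl 0, .inl 1, .inl 2, .inl 3, .inl 4, .inl 5,
    .inl 6, .inl 6, .inl 6]

theorem R_S : ∀ i j l : Fin 15, R i j l = true → gS i = gS j ∨ (i = 0 ∧ j = 1 ∧ l = 2) := by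
  decide +kernel

omit [Fintype V] in
theorem sat0 (E : V → V → V → Prop) (B : Fin 7 → Finset V) (hc : ∀ i, (B i).card = 40)
    (hd : ∀ i j, i ≠ j → Disjoint (B i) (B j))
    (hE : ∀ i, ∀ p ∈ B i, ∀ q ∈ B i, ∀ t, p ≠ q → p ≠ t → q ≠ t → E p q t)
    (x y z : V) (hx : x ∈ B 0) (hy : y ∈ B 1) (hz : z ∈ B 2) :
    ∃ A, IsCopy (fun p q r => E p q r ∨ ({p, q, r} : Finset V) = {x, y, z}) A := by
  have nm : ∀ {i j : Fin 7} {t : V}, t ∈ B i → i ≠ j → t ∉ B j :=
    fun {i j t} ht hij => Finset.disjoint_left.1 (hd i j hij) ht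
  have hxy : x ≠ y := fun e => nm hx (by decide) (e ▸ hy)
  have hxz : x ≠ z := fun e => nm hx (by decide) (e ▸ hz)
  have hyz : y ≠ z := fun e => nm hy (by decide) (e ▸ hz)
  let c : Fin 3 → V := ![x, y, z]
  have hci : Function.Injective c := by
    intro i j
    fin_cases i <;> fin_cases j <;> simp [c, hxy, hxz, hyz, hxy.symm, hxz.symm, hyz.symm]
  let C : Fin 7 ⊕ Fin 3 → Finset V := fun k =>
    match k with
    | .inl j => B j \ {x, y, z}
    | .inr j => {c j}
  have hcm : ∀ j, c j ∈ ({x, y, z} : Finset V) := by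
    intro j; fin_cases j <;> simp [c]
  have hsub : ∀ i, C (plS i) ⊆ B (gS i) := by
    intro i
    have h1 : plS i = .inl (gS i) ∨ i = 0 ∨ i = 1 ∨ i = 2 := by revert i; decide
    rcases h1 with h1 | rfl | rfl | rfl
    · rw [h1]; exact Finset.sdiff_subset
    · exact Finset.singleton_subset_iff.2 hx
    · exact Finset.singleton_subset_iff.2 hy
    · exact Finset.singleton_subset_iff.2 hz
  refine place _ plS C ?_ ?_ ?_
  · rintro (i | i) (j | j) hij
    · exact Finset.disjoint_of_subset_left Finset.sdiff_subset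
        (Finset.disjoint_of_subset_right Finset.sdiff_subset (hd i j (fun e => hij (by rw [e]))))
    · exact Finset.disjoint_singleton_right.2 (fun h => (Finset.mem_sdiff.1 h).2 (hcm j))
    · exact Finset.disjoint_singleton_left.2 (fun h => (Finset.mem_sdiff.1 h).2 (hcm i))
    · exact Finset.disjoint_singleton.2 (hci.ne (fun e => hij (by rw [e])))
  · rintro (j | j)
    · have h1 : ∑ i ∈ univ.filter (fun i => plS i = .inl j), sz i ≤
          if j.val < 3 then 39 else 40 := by
        revert j; decide +kernel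
      refine h1.trans ?_
      have key : ∀ t : V, (∀ w ∈ B j, w ∈ ({x, y, z} : Finset V) → w = t) →
          39 ≤ (B j \ {x, y, z}).card := by
        intro t ht
        have : (B j).erase t ⊆ B j \ {x, y, z} := by
          intro w hw
          rw [Finset.mem_erase] at hw
          exact Finset.mem_sdiff.2 ⟨hw.2, fun h => hw.1 (ht w hw.2 h)⟩
        have h2 := Finset.card_le_card this
        have h3 := Finset.pred_card_le_card_erase (s := B j) (a := t)
        rw [hc] at h3
        omega
      by_cases hj : j.val < 3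
      · rw [if_pos hj]
        have : j = 0 ∨ j = 1 ∨ j = 2 :=
          (by decide : ∀ j : Fin 7, j.val < 3 → j = 0 ∨ j = 1 ∨ j = 2) j hj
        rcases this with rfl | rfl | rfl
        · refine key x (fun w hw h => ?_)
          simp only [Finset.mem_insert, Finset.mem_singleton] at h
          rcases h with rfl | rfl | rfl
          · rfl
          · exact absurd hw (nm hy (by decide))
          · exact absurd hw (nm hz (by decide))
        · refine key y (fun w hw h => ?_)
          simp only [Finset.mem_insert, Finset.mem_singleton] at h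
          rcases h with rfl | rfl | rfl
          · exact absurd hw (nm hx (by decide))
          · rfl
          · exact absurd hw (nm hz (by decide))
        · refine key z (fun w hw h => ?_)
          simp only [Finset.mem_insert, Finset.mem_singleton] at h
          rcases h with rfl | rfl | rfl
          · exact absurd hw (nm hx (by decide))
          · exact absurd hw (nm hy (by decide))
          · rfl
      · rw [if_neg hj]
        have : B j ⊆ B j \ {x, y, z} := by
          intro w hw
          refine Finset.mem_sdiff.2 ⟨hw, fun h => ?_⟩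
          simp only [Finset.mem_insert, Finset.mem_singleton] at h
          rcases h with rfl | rfl | rfl
          · exact nm hx (by rintro rfl; simp at hj) hw
          · exact nm hy (by rintro rfl; simp at hj) hw
          · exact nm hz (by rintro rfl; simp at hj) hw
        have h2 := Finset.card_le_card this
        rw [hc] at h2
        exact h2
    · have h1 : ∑ i ∈ univ.filter (fun i => plS i = .inr j), sz i ≤ 1 := by
        revert j; decide +kernel
      simpa [C] using h1
  · intro i j l hR p hp q hq r hr h1 h2 h3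
    rcases R_S i j l hR with e | ⟨rfl, rfl, rfl⟩
    · exact Or.inl (hE (gS i) p (hsub i hp) q (e ▸ hsub j hq) r h1 h2 h3)
    · right
      simp [C, plS, c] at hp hq hr
      rw [hp, hq, hr]

/-- the block hypergraph on `Fin n` -/
def G0 (n : ℕ) : Finset (Finset (Fin n)) :=
  ((univ : Finset (Fin n × Fin n × Fin n)).filter (fun t => t.1 < t.2.1 ∧
    t.1.val / 40 = t.2.1.val / 40 ∧ t.1 ≠ t.2.2 ∧ t.2.1 ≠ t.2.2)).image
    (fun t => {t.1, t.2.1, t.2.2})

theorem mem_G0 {n : ℕ} (e : Finset (Fin n)) : e ∈ G0 n ↔ ∃ x y z : Fin n, x < y ∧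
    x.val / 40 = y.val / 40 ∧ x ≠ z ∧ y ≠ z ∧ e = {x, y, z} := by
  simp only [G0, Finset.mem_image, Finset.mem_filter, Finset.mem_univ, true_and, Prod.exists]
  constructor
  · rintro ⟨x, y, z, ⟨h1, h2, h3, h4⟩, rfl⟩
    exact ⟨x, y, z, h1, h2, h3, h4, rfl⟩
  · rintro ⟨x, y, z, h1, h2, h3, h4, rfl⟩
    exact ⟨x, y, z, ⟨h1, h2, h3, h4⟩, rfl⟩

theorem G0_intro {n : ℕ} (x y z : Fin n) (h : x.val / 40 = y.val / 40) (h1 : x ≠ y) (h2 : x ≠ z)
    (h3 : y ≠ z) : ({x, y, z} : Finset (Fin n)) ∈ G0 n := by
  rcases lt_or_gt_of_ne h1 with h4 | h4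
  · exact (mem_G0 _).2 ⟨x, y, z, h4, h, h2, h3, rfl⟩
  · exact (mem_G0 _).2 ⟨y, x, z, h4, h.symm, h3, h2, Finset.insert_comm _ _ _⟩

theorem G0_card3 {n : ℕ} (e : Finset (Fin n)) (he : e ∈ G0 n) : e.card = 3 := by
  obtain ⟨x, y, z, h1, -, h3, h4, rfl⟩ := (mem_G0 e).1 he
  exact Finset.card_eq_three.2 ⟨x, y, z, h1.ne, h3, h4, rfl⟩

theorem G0_elim {n : ℕ} (p q r : Fin n) (h : ({p, q, r} : Finset (Fin n)) ∈ G0 n) :
    p.val / 40 = q.val / 40 ∨ p.val / 40 = r.val / 40 ∨ q.val / 40 = r.val / 40 := by
  obtain ⟨x, y, z, h1, h2, -, -, he⟩ := (mem_G0 _).1 h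
  have hx : x ∈ ({p, q, r} : Finset (Fin n)) := by rw [he]; simp
  have hy : y ∈ ({p, q, r} : Finset (Fin n)) := by rw [he]; simp
  simp only [Finset.mem_insert, Finset.mem_singleton] at hx hy
  have h3 := h1.ne
  rcases hx with rfl | rfl | rfl <;> rcases hy with rfl | rfl | rfl <;> simp_all

theorem blk_le (n b : ℕ) : (univ.filter (fun t : Fin n => t.val / 40 = b)).card ≤ 40 := by
  have : (univ.filter (fun t : Fin n => t.val / 40 = b)).card ≤ (Finset.range 40).card := by
    refine Finset.card_le_card_of_injOn (fun t => t.val % 40) ?_ ?_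
    · intro t _
      simp only [Finset.coe_range, Set.mem_Iio]
      omega
    · intro s hs t ht h
      simp only [Finset.coe_filter, Finset.mem_univ, true_and, Set.mem_ofPred_eq] at hs ht h
      apply Fin.ext
      omega
  simpa using this

theorem blk_eq (n b : ℕ) (hb : 40 * b + 40 ≤ n) :
    (univ.filter (fun t : Fin n => t.val / 40 = b)).card = 40 := by
  refine le_antisymm (blk_le n b) ?_
  have : (univ : Finset (Fin 40)).card ≤
      (univ.filter (fun t : Fin n => t.val / 40 = b)).card := by
    refine Finset.card_le_card_of_injOn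
      (fun t => (⟨40 * b + t.val, by have := t.2; omega⟩ : Fin n)) ?_ ?_
    · intro t _
      simp only [Finset.coe_filter, Finset.mem_univ, true_and, Set.mem_ofPred_eq]
      have := t.2
      omega
    · intro s _ t _ h
      have := congrArg Fin.val h
      simp only at this
      apply Fin.ext
      omega
  simpa using this

theorem G0_card (n : ℕ) : 2 * (G0 n).card ≤ 39 * n ^ 2 := by
  set P := (univ : Finset (Fin n × Fin n)).filter
    (fun t => t.1 < t.2 ∧ t.1.val / 40 = t.2.val / 40) with hP
  set P' := (univ : Finset (Fin n × Fin n)).filter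
    (fun t => t.2 < t.1 ∧ t.1.val / 40 = t.2.val / 40) with hP'
  have h1 : (G0 n).card ≤ P.card * n := by
    refine Finset.card_image_le.trans ?_
    have : (P ×ˢ (univ : Finset (Fin n))).card = P.card * n := by simp
    rw [← this]
    refine Finset.card_le_card_of_injOn (fun t => ((t.1, t.2.1), t.2.2)) ?_ ?_
    · intro t ht
      simp only [Finset.coe_filter, Finset.mem_univ, true_and, Set.mem_ofPred_eq] at ht
      simp [hP, ht.1, ht.2.1]
    · rintro ⟨a, b, c⟩ _ ⟨a', b', c'⟩ _ h
      simp only [Prod.mk.injEq] at h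
      simp [h.1.1, h.1.2, h.2]
  have h2 : P'.card = P.card := by
    refine Finset.card_bij (fun t _ => (t.2, t.1)) ?_ ?_ ?_
    · intro t ht
      simp only [hP', Finset.mem_filter, Finset.mem_univ, true_and] at ht
      simp [hP, ht.1, ht.2]
    · rintro ⟨a, b⟩ _ ⟨a', b'⟩ _ h
      simp only [Prod.mk.injEq] at h
      simp [h.1, h.2]
    · rintro ⟨a, b⟩ ht
      simp only [hP, Finset.mem_filter, Finset.mem_univ, true_and] at ht
      exact ⟨(b, a), by simp [hP', ht.1, ht.2], rfl⟩
  have h3 : Disjoint P P' := by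
    refine Finset.disjoint_left.2 (fun t ht ht' => ?_)
    simp only [hP, hP', Finset.mem_filter, Finset.mem_univ, true_and] at ht ht'
    exact lt_asymm ht.1 ht'.1
  have h4 : (P ∪ P').card ≤ 39 * n := by
    have := Finset.card_le_mul_card_image_of_maps_to (s := P ∪ P') (t := (univ : Finset (Fin n)))
      (f := Prod.fst) (fun _ _ => mem_univ _) 39 (by
        intro x _
        have h5 : ((P ∪ P').filter (fun t => t.1 = x)).card ≤
            ((univ.filter (fun t : Fin n => t.val / 40 = x.val / 40)).erase x).card := by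
          refine Finset.card_le_card_of_injOn Prod.snd ?_ ?_
          · rintro ⟨a, b⟩ ht
            simp only [hP, hP', Finset.coe_filter, Finset.mem_union, Finset.mem_filter,
              Finset.mem_univ, true_and, Set.mem_ofPred_eq] at ht
            obtain ⟨ht, rfl⟩ := ht
            simp only [Finset.coe_erase, Finset.coe_filter, Finset.mem_univ, true_and,
              Set.mem_sdiff, Set.mem_ofPred_eq, Set.mem_singleton_iff]
            rcases ht with ht | ht
            · exact ⟨ht.2.symm, ht.1.ne'⟩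
            · exact ⟨ht.2.symm, ht.1.ne⟩
          · rintro ⟨a, b⟩ ht ⟨a', b'⟩ ht' h
            simp only [Finset.coe_filter, Set.mem_ofPred_eq] at ht ht' h
            simp [ht.2, ht'.2, h]
        rw [Finset.card_erase_of_mem (by simp)] at h5
        have := blk_le n (x.val / 40)
        omega)
    simpa using this
  rw [Finset.card_union_of_disjoint h3, h2] at h4
  calc 2 * (G0 n).card ≤ 2 * (P.card * n) := by omega
    _ = (P.card + P.card) * n := by ring
    _ ≤ (39 * n) * n := Nat.mul_le_mul_right _ h4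
    _ = 39 * n ^ 2 := by ring

theorem G0_free (n : ℕ) : ¬∃ f : Fin (Fintype.card W) ↪ Fin n, ∀ e ∈ FF, e.map f ∈ G0 n := by
  rw [contains_iff]
  rintro ⟨A, hA⟩
  exact free0 (fun t : Fin n => t.val / 40) (blk_le n) A ⟨hA.card, hA.disj,
    fun i j l hR p hp q hq r hr h1 h2 h3 =>
      G0_elim p q r (hA.edge i j l hR p hp q hq r hr h1 h2 h3)⟩

theorem G0_sat (n : ℕ) (hn : 280 ≤ n) (hd : 40 ∣ n) (s : Finset (Fin n)) (hs : s.card = 3)
    (hG : s ∉ G0 n) :
    ∃ f : Fin (Fintype.card W) ↪ Fin n, ∀ e ∈ FF, e.map f ∈ insert s (G0 n) := by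
  obtain ⟨x, y, z, hxy, hxz, hyz, rfl⟩ := Finset.card_eq_three.1 hs
  have bxy : x.val / 40 ≠ y.val / 40 := fun h => hG (G0_intro x y z h hxy hxz hyz)
  have bxz : x.val / 40 ≠ z.val / 40 := fun h => hG (by
    have := G0_intro x z y h hxz hxy hyz.symm
    rwa [Finset.pair_comm z y] at this)
  have byz : y.val / 40 ≠ z.val / 40 := fun h => hG (by
    have := G0_intro y z x h hyz hxy.symm hxz.symm
    rwa [Finset.pair_comm z x, Finset.insert_comm y x] at this)
  obtain ⟨m, rfl⟩ := hd
  have h4 : 4 ≤ (Finset.range 7 \ {x.val / 40, y.val / 40, z.val / 40}).card := by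
    have h1 := Finset.le_card_sdiff ({x.val / 40, y.val / 40, z.val / 40} : Finset ℕ)
      (Finset.range 7)
    have h2 : ({x.val / 40, y.val / 40, z.val / 40} : Finset ℕ).card ≤ 3 := Finset.card_le_three
    rw [Finset.card_range] at h1
    omega
  obtain ⟨S, hS, hS4⟩ := Finset.exists_subset_card_eq h4
  obtain ⟨b3, b4, b5, b6, n34, n35, n36, n45, n46, n56, rfl⟩ := Finset.card_eq_four.1 hS4
  have hb : ∀ b ∈ ({b3, b4, b5, b6} : Finset ℕ), b < 7 ∧ b ≠ x.val / 40 ∧ b ≠ y.val / 40 ∧
      b ≠ z.val / 40 := by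
    intro b hb
    have := hS hb
    simpa [not_or] using this
  have h3 := hb b3 (by simp)
  have h4 := hb b4 (by simp)
  have h5 := hb b5 (by simp)
  have h6 := hb b6 (by simp)
  let lab : Fin 7 → ℕ := ![x.val / 40, y.val / 40, z.val / 40, b3, b4, b5, b6]
  have hinj : Function.Injective lab := by
    have : List.Nodup [x.val / 40, y.val / 40, z.val / 40, b3, b4, b5, b6] := by
      simp only [List.nodup_cons, List.mem_cons, List.not_mem_nil, or_false, not_or,
        List.nodup_nil, and_true, not_false_eq_true]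
      exact ⟨⟨bxy, bxz, h3.2.1.symm, h4.2.1.symm, h5.2.1.symm, h6.2.1.symm⟩,
        ⟨byz, h3.2.2.1.symm, h4.2.2.1.symm, h5.2.2.1.symm, h6.2.2.1.symm⟩,
        ⟨h3.2.2.2.symm, h4.2.2.2.symm, h5.2.2.2.symm, h6.2.2.2.symm⟩, ⟨n34, n35, n36⟩,
        ⟨n45, n46⟩, n56⟩
    exact List.nodup_ofFn.1 (by simpa [lab] using this)
  have hlab : ∀ i, 40 * lab i + 40 ≤ 40 * m := by
    have k1 : ∀ t : Fin (40 * m), 40 * (t.val / 40) + 40 ≤ 40 * m := by
      intro t
      have := t.2
      clear * - this
      omega
    have k2 : ∀ b, b < 7 → 40 * b + 40 ≤ 40 * m := by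
      intro b hb
      clear * - hb hn
      omega
    intro i
    fin_cases i
    · exact k1 x
    · exact k1 y
    · exact k1 z
    · exact k2 _ h3.1
    · exact k2 _ h4.1
    · exact k2 _ h5.1
    · exact k2 _ h6.1
  rw [contains_iff]
  obtain ⟨A, hA⟩ := sat0 (fun p q r => ({p, q, r} : Finset (Fin (40 * m))) ∈ G0 (40 * m))
    (fun i => univ.filter (fun t : Fin (40 * m) => t.val / 40 = lab i))
    (fun i => blk_eq _ _ (hlab i))
    (fun i j hij => Finset.disjoint_left.2 (fun t ht ht' => hij (hinj
      ((Finset.mem_filter.1 ht).2.symm.trans (Finset.mem_filter.1 ht').2))))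
    (fun i p hp q hq t h1 h2 h3 => G0_intro p q t
      ((Finset.mem_filter.1 hp).2.trans (Finset.mem_filter.1 hq).2.symm) h1 h2 h3)
    x y z (Finset.mem_filter.2 ⟨mem_univ _, rfl⟩) (Finset.mem_filter.2 ⟨mem_univ _, rfl⟩)
    (Finset.mem_filter.2 ⟨mem_univ _, rfl⟩)
  refine ⟨A, hA.card, hA.disj, fun i j l hR p hp q hq r hr h1 h2 h3 => ?_⟩
  rcases hA.edge i j l hR p hp q hq r hr h1 h2 h3 with h | h
  · exact Finset.mem_insert_of_mem h
  · rw [h]; exact Finset.mem_insert_self _ _

end Pool.Agent.MP_038f7f_co.H77
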