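import Mathlib
import Pool.Agent.MP_038f7f_co.h77.Upper
import Pool.Agent.MP_038f7f_co.h77.StepOneB

/-!
Bridge from hypergraphs on `Fin n` to ternary relations, and the two bounds.
-/

set_option autoImplicit false

namespace Pool.Agent.MP_038f7f_co.H77

open Finset

theorem cnt_le {V : Type} [Fintype V] [DecidableEq V] (G : Finset (Finset V))
    (hG : ∀ e ∈ G, e.card = 3) : cnt (fun x y z => ({x, y, z} : Finset V) ∈ G) ≤ 6 * G.card := by
  have h1 : cnt (fun x y z => ({x, y, z} : Finset V) ∈ G) =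
      ((univ : Finset (V × V × V)).filter (fun t => ({t.1, t.2.1, t.2.2} : Finset V) ∈ G)).card := by
    rw [← sum_ind, Fintype.sum_prod_type]
    simp only [Fintype.sum_prod_type]
    rfl
  rw [h1]
  refine Finset.card_le_mul_card_image_of_maps_to
    (f := fun t : V × V × V => ({t.1, t.2.1, t.2.2} : Finset V))
    (fun t ht => (Finset.mem_filter.1 ht).2) 6 (fun e he => ?_)
  obtain ⟨a, b, c, -, -, -, rfl⟩ := Finset.card_eq_three.1 (hG e he)
  refine le_trans (Finset.card_le_card ?_) (Finset.card_le_six (a := (a, b, c)) (b := (a, c, b))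
    (c := (b, a, c)) (d := (b, c, a)) (e := (c, a, b)) (f := (c, b, a)))
  rintro ⟨x, y, z⟩ ht
  have h2 : ({x, y, z} : Finset V) = {a, b, c} := (Finset.mem_filter.1 ht).2
  have h3 : ({x, y, z} : Finset V).card = 3 := by rw [h2]; exact hG _ he
  have hxy : x ≠ y := by
    rintro rfl
    have : ({x, x, z} : Finset V).card ≤ 2 := by rw [Finset.insert_idem]; exact Finset.card_le_two
    omega
  have hxz : x ≠ z := by
    rintro rfl
    have : ({x, y, x} : Finset V).card ≤ 2 := by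
      rw [Finset.pair_comm y x, Finset.insert_idem]; exact Finset.card_le_two
    omega
  have hyz : y ≠ z := by
    rintro rfl
    have : ({x, y, y} : Finset V).card ≤ 2 := by
      rw [Finset.pair_eq_singleton]; exact Finset.card_le_two
    omega
  have hx : x ∈ ({a, b, c} : Finset V) := by rw [← h2]; simp
  have hy : y ∈ ({a, b, c} : Finset V) := by rw [← h2]; simp
  have hz : z ∈ ({a, b, c} : Finset V) := by rw [← h2]; simp
  simp only [Finset.mem_insert, Finset.mem_singleton] at hx hy hz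
  rcases hx with rfl | rfl | rfl <;> rcases hy with rfl | rfl | rfl <;>
    rcases hz with rfl | rfl | rfl <;>
    first
      | exact absurd rfl hxy
      | exact absurd rfl hxz
      | exact absurd rfl hyz
      | simp

theorem hyp_of {V : Type} [DecidableEq V] (G : Finset (Finset V)) (h1 : ∀ e ∈ G, e.card = 3)
    (h2 : ¬∃ f : Fin (Fintype.card W) ↪ V, ∀ e ∈ FF, e.map f ∈ G)
    (h3 : ∀ s : Finset V, s.card = 3 → s ∉ G →
      ∃ f : Fin (Fintype.card W) ↪ V, ∀ e ∈ FF, e.map f ∈ insert s G) :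
    Hyp (fun x y z => ({x, y, z} : Finset V) ∈ G) := by
  refine ⟨fun x y z e => by rwa [Finset.insert_comm], fun x y z e => by rwa [Finset.pair_comm],
    fun x y z e => ?_, fun A hA => h2 ((contains_iff G).2 ⟨A, hA⟩), fun x y z a b c e => ?_⟩
  · rintro rfl
    have := h1 _ e
    have : ({x, x, z} : Finset V).card ≤ 2 := by rw [Finset.insert_idem]; exact Finset.card_le_two
    omega
  · obtain ⟨A, hA⟩ := (contains_iff _).1
      (h3 {x, y, z} (Finset.card_eq_three.2 ⟨x, y, z, a, b, c, rfl⟩) e)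
    exact ⟨A, hA.card, hA.disj, fun i j l hR p hp q hq r hr a1 a2 a3 =>
      (Finset.mem_insert.1 (hA.edge i j l hR p hp q hq r hr a1 a2 a3)).symm⟩

theorem lower_G (n : ℕ) (hn : 10 ^ 50 ≤ n) (hd : ¬40 ∣ n) (G : Finset (Finset (Fin n)))
    (h1 : ∀ e ∈ G, e.card = 3)
    (h2 : ¬∃ f : Fin (Fintype.card W) ↪ Fin n, ∀ e ∈ FF, e.map f ∈ G)
    (h3 : ∀ s : Finset (Fin n), s.card = 3 → s ∉ G →
      ∃ f : Fin (Fintype.card W) ↪ Fin n, ∀ e ∈ FF, e.map f ∈ insert s G) :
    (117 * 10 ^ 12 + 1) * n ^ 2 ≤ 10 ^ 12 * (6 * G.card) := by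
  by_contra hc
  have h4 := cnt_le G h1
  have h5 := lower (hyp_of G h1 h2 h3) (by rwa [Fintype.card_fin])
    (by rw [Fintype.card_fin]; omega)
  rw [Fintype.card_fin] at h5
  exact hd h5

theorem exists_sat {m : ℕ} (F : Finset (Finset (Fin m))) (hF : F.Nonempty) (n : ℕ) :
    ∃ G : Finset (Finset (Fin n)), (∀ e ∈ G, e.card = 3) ∧
      (¬∃ f : Fin m ↪ Fin n, ∀ e ∈ F, e.map f ∈ G) ∧
      ∀ s : Finset (Fin n), s.card = 3 → s ∉ G →
        ∃ f : Fin m ↪ Fin n, ∀ e ∈ F, e.map f ∈ insert s G := by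
  classical
  obtain ⟨G, hG, hmax⟩ := Finset.exists_max_image
    ((univ : Finset (Finset (Finset (Fin n)))).filter (fun G => (∀ e ∈ G, e.card = 3) ∧
      ¬∃ f : Fin m ↪ Fin n, ∀ e ∈ F, e.map f ∈ G)) Finset.card ⟨∅, by
        obtain ⟨e, he⟩ := hF
        refine Finset.mem_filter.2 ⟨mem_univ _, by simp, ?_⟩
        rintro ⟨f, hf⟩
        simpa using hf e he⟩
  obtain ⟨a, b⟩ := (Finset.mem_filter.1 hG).2
  refine ⟨G, a, b, fun s hs hs' => ?_⟩
  by_contra hc
  have := hmax (insert s G) (Finset.mem_filter.2 ⟨mem_univ _, fun e he => by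
    rcases Finset.mem_insert.1 he with rfl | he
    · exact hs
    · exact a e he, hc⟩)
  rw [Finset.card_insert_of_notMem hs'] at this
  omega

theorem no_limit (a : ℕ → ℝ) (s c : ℝ) (hc : 0 < c) (n₀ : ℕ)
    (h : ∀ n, n₀ ≤ n → (40 ∣ n → a n ≤ s * (n : ℝ) ^ 2) ∧ (¬40 ∣ n → (s + c) * (n : ℝ) ^ 2 ≤ a n)) :
    ¬∃ L : ℝ, Filter.Tendsto (fun n : ℕ => a n / (n : ℝ) ^ 2) Filter.atTop (nhds L) := by
  rintro ⟨L, hL⟩
  have h1 : L ≤ s := by
    refine le_of_tendsto_of_frequently hL (Filter.frequently_atTop.2 (fun N => ?_))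
    refine ⟨40 * (N + n₀ + 1), by omega, ?_⟩
    rw [div_le_iff₀ (by positivity)]
    exact (h _ (by omega)).1 (Dvd.intro _ rfl)
  have h2 : s + c ≤ L := by
    refine ge_of_tendsto_of_frequently hL (Filter.frequently_atTop.2 (fun N => ?_))
    refine ⟨40 * (N + n₀) + 1, by omega, ?_⟩
    rw [le_div_iff₀ (by positivity)]
    exact (h _ (by omega)).2 (by omega)
  linarith

end Pool.Agent.MP_038f7f_co.H77
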